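import Pool.Agent.TH507.ZS.MZ

/-!
# Combinations of multiple harmonic sums have eventually constant sign (helper883)
-/

set_option autoImplicit false

namespace Pool.Agent.TH883.Zg

open Filter Topology Polynomial Pool.Agent.TH507.HS Pool.Agent.TH507.ZS

/-- eventually zero, eventually positive or eventually negative -/
def SG (f : ℕ → ℚ) : Prop :=
  (∀ᶠ m in atTop, f m = 0) ∨ (∀ᶠ m in atTop, 0 < f m) ∨ (∀ᶠ m in atTop, f m < 0)

lemma SG.congr {f g : ℕ → ℚ} (h : ∀ᶠ m in atTop, f m = g m) (hf : SG f) : SG g := by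
  rcases hf with h1 | h1 | h1
  · left
    filter_upwards [h, h1] with m h2 h3
    rw [← h2, h3]
  · right; left
    filter_upwards [h, h1] with m h2 h3
    rw [← h2]
    exact h3
  · right; right
    filter_upwards [h, h1] with m h2 h3
    rw [← h2]
    exact h3

lemma SG.mul {f g : ℕ → ℚ} (hf : SG f) (hg : SG g) : SG (fun m => f m * g m) := by
  rcases hf with h1 | h1 | h1
  · left
    filter_upwards [h1] with m h2
    rw [h2, zero_mul]
  · rcases hg with h3 | h3 | h3
    · left
      filter_upwards [h3] with m h2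
      rw [h2, mul_zero]
    · right; left
      filter_upwards [h1, h3] with m h4 h5
      exact mul_pos h4 h5
    · right; right
      filter_upwards [h1, h3] with m h4 h5
      exact mul_neg_of_pos_of_neg h4 h5
  · rcases hg with h3 | h3 | h3
    · left
      filter_upwards [h3] with m h2
      rw [h2, mul_zero]
    · right; right
      filter_upwards [h1, h3] with m h4 h5
      exact mul_neg_of_neg_of_pos h4 h5
    · right; left
      filter_upwards [h1, h3] with m h4 h5
      exact mul_pos_of_neg_of_neg h4 h5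

lemma SG.inv {f : ℕ → ℚ} (hf : SG f) : SG (fun m => (f m)⁻¹) := by
  rcases hf with h1 | h1 | h1
  · left
    filter_upwards [h1] with m h2
    rw [h2, inv_zero]
  · right; left
    filter_upwards [h1] with m h2
    exact inv_pos.2 h2
  · right; right
    filter_upwards [h1] with m h2
    exact inv_lt_zero.2 h2

lemma SG.neg {f : ℕ → ℚ} (hf : SG f) : SG (fun m => - f m) := by
  rcases hf with h1 | h1 | h1
  · left
    filter_upwards [h1] with m h2
    rw [h2, neg_zero]
  · right; right
    filter_upwards [h1] with m h2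
    linarith
  · right; left
    filter_upwards [h1] with m h2
    linarith

lemma SG_of_pos_diff {f : ℕ → ℚ} (h : ∀ᶠ m in atTop, 0 < f (m + 1) - f m) : SG f := by
  rw [eventually_atTop] at h
  obtain ⟨m0, hm0⟩ := h
  have hinc : ∀ m, m0 ≤ m → ∀ r, f m < f (m + r + 1) := by
    intro m hm r
    induction r with
    | zero =>
      have := hm0 m hm
      simp only [add_zero]
      linarith
    | succ r ih =>
      have := hm0 (m + r + 1) (by omega)
      have h2 : m + (r + 1) + 1 = m + r + 1 + 1 := by ring
      rw [h2]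
      linarith
  by_cases hex : ∃ m1, m0 ≤ m1 ∧ 0 ≤ f m1
  · obtain ⟨m1, h1, h2⟩ := hex
    right; left
    filter_upwards [eventually_ge_atTop (m1 + 1)] with m hm
    have h3 := hinc m1 h1 (m - m1 - 1)
    have h4 : m1 + (m - m1 - 1) + 1 = m := by omega
    rw [h4] at h3
    linarith
  · push Not at hex
    right; right
    filter_upwards [eventually_ge_atTop m0] with m hm
    exact hex m hm

lemma SG_of_diff {f : ℕ → ℚ} (h : SG (fun m => f (m + 1) - f m)) : SG f := by
  rcases h with h | h | h
  · rw [eventually_atTop] at h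
    obtain ⟨m0, hm0⟩ := h
    have hc : ∀ m, m0 ≤ m → f m = f m0 := by
      intro m hm
      induction m, hm using Nat.le_induction with
      | base => rfl
      | succ m hm ih =>
        have := hm0 m hm
        linarith
    rcases lt_trichotomy (f m0) 0 with h1 | h1 | h1
    · right; right
      filter_upwards [eventually_ge_atTop m0] with m hm
      rw [hc m hm]
      exact h1
    · left
      filter_upwards [eventually_ge_atTop m0] with m hm
      rw [hc m hm]
      exact h1
    · right; left
      filter_upwards [eventually_ge_atTop m0] with m hm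
      rw [hc m hm]
      exact h1
  · exact SG_of_pos_diff h
  · have h1 : SG (fun m => - f m) := by
      refine SG_of_pos_diff ?_
      filter_upwards [h] with m hm
      linarith
    have h2 := h1.neg
    simpa using h2

/-- values of polynomials -/
lemma SG_ev (P : ℤ[X]) (N : ℕ) : SG (fun m => ev P (1 + N * m)) := by
  induction hd : P.natDegree using Nat.strong_induction_on generalizing P with
  | _ d ih =>
    rcases Nat.eq_zero_or_pos d with h0 | hpos
    · have h1 : P = C (P.coeff 0) := eq_C_of_natDegree_eq_zero (by omega)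
      have h2 : ∀ m : ℕ, ev P (1 + N * m) = ((P.coeff 0 : ℤ) : ℚ) := by
        intro m
        rw [ev, h1, eval_C]
        simp
      refine SG_of_diff (Or.inl (Eventually.of_forall fun m => ?_))
      simp only
      rw [h2, h2, sub_self]
    · set T : ℤ[X] := P.comp (X + C (N : ℤ)) - P with hT
      have h1 : ∀ m : ℕ, ev P (1 + N * (m + 1)) - ev P (1 + N * m) = ev T (1 + N * m) := by
        intro m
        rw [ev, ev, ev, hT, eval_sub, eval_comp]
        push_cast
        congr 3
        simp
        ring
      have h2 : T.natDegree < d := by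
        have hPne : P ≠ 0 := by
          rintro rfl
          rw [natDegree_zero] at hd
          omega
        have hmonic : (X + C (N : ℤ)).Monic := monic_X_add_C _
        have hdeg : (P.comp (X + C (N : ℤ))).natDegree = P.natDegree := by
          rw [natDegree_comp, natDegree_X_add_C, mul_one]
        have hlead : (P.comp (X + C (N : ℤ))).leadingCoeff = P.leadingCoeff := by
          rw [leadingCoeff_comp (by rw [natDegree_X_add_C]; exact one_ne_zero),
            hmonic.leadingCoeff, one_pow, mul_one]
        by_cases hT0 : T = 0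
        · rw [hT0, natDegree_zero]
          exact hpos
        · have hPc : P.comp (X + C (N : ℤ)) ≠ 0 := by
            intro h
            rw [h, leadingCoeff_zero] at hlead
            exact hPne (leadingCoeff_eq_zero.1 hlead.symm)
          have h3 : T.degree < (P.comp (X + C (N : ℤ))).degree := by
            refine degree_sub_lt_left ?_ hPc hlead
            rw [degree_eq_natDegree hPc, degree_eq_natDegree hPne, hdeg]
          rw [← hd, ← hdeg]
          exact natDegree_lt_natDegree hT0 h3
      refine SG_of_diff ?_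
      simp only [h1]
      exact ih _ h2 T rfl

/-- sign of a germ -/
def Sz (z : AA) : Prop := ∃ f, gr f = z ∧ SG f

lemma Sz_gr {f : ℕ → ℚ} : Sz (gr f) ↔ SG f := by
  constructor
  · rintro ⟨g, hg, hs⟩
    exact hs.congr (gr_eq.1 hg)
  · intro h
    exact ⟨f, rfl, h⟩

lemma Sz_mul {x z : AA} (hx : Sz x) (hz : Sz z) : Sz (x * z) := by
  obtain ⟨f, rfl, hf⟩ := hx
  obtain ⟨g, rfl, hg⟩ := hz
  rw [gr_mul, Sz_gr]
  exact hf.mul hg

lemma Sz_K {N : ℕ} {hN : 1 ≤ N} {x : AA} (hx : x ∈ KN N hN) : Sz x := by
  obtain ⟨P, Q, _, rfl⟩ := hx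
  rw [Sz_gr]
  simp only [div_eq_mul_inv]
  exact (SG_ev P N).mul (SG_ev Q N).inv

lemma Sz_of_diff {z : AA} (h : Sz (sig z - z)) : Sz z := by
  obtain ⟨f, rfl⟩ := gr_surj z
  rw [sig_gr, gr_sub, Sz_gr] at h
  rw [Sz_gr]
  exact SG_of_diff h

/-- **combinations of words have eventually constant sign** -/
theorem Sz_W (N : ℕ) (hN : 1 ≤ N) (t : ℕ) : ∀ z ∈ W (KN N hN) (yw N) t, Sz z := by
  classical
  have H := hyp N hN
  induction t with
  | zero =>
    intro z hz
    have h1 : W (KN N hN) (yw N) 0 = ⊥ := by
      unfold W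
      rw [Submodule.span_eq_bot]
      rintro x ⟨w, hw, -⟩
      exact absurd hw (Nat.not_lt_zero _)
    rw [h1, Submodule.mem_bot] at hz
    rw [hz, ← gr_zero, Sz_gr]
    exact Or.inl (Eventually.of_forall fun _ => rfl)
  | succ t ih =>
    have main : ∀ (r : ℕ) (V : Finset (List ℕ+)) (d : List ℕ+ → AA) (ω : AA), V.card = r →
        (∀ v ∈ V, v.length = t) → (∀ v, d v ∈ KN N hN) → ω ∈ W (KN N hN) (yw N) t →
        Sz (∑ v ∈ V, d v * yw N v + ω) := by
      intro r
      induction r with
      | zero =>
        intro V d ω hV _ _ hω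
        rw [Finset.card_eq_zero] at hV
        rw [hV, Finset.sum_empty, zero_add]
        exact ih ω hω
      | succ r ihr =>
        intro V d ω hV hVt hdK hω
        obtain ⟨v0, hv0⟩ : V.Nonempty := by
          rw [← Finset.card_pos]
          omega
        have hcard : (V.erase v0).card = r := by
          rw [Finset.card_erase_of_mem hv0, hV]
          rfl
        by_cases hd0 : d v0 = 0
        · rw [← Finset.add_sum_erase V _ hv0, hd0, zero_mul, zero_add]
          exact ihr _ d ω hcard (fun v hv => hVt v (Finset.mem_of_mem_erase hv)) hdK hω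
        · obtain ⟨ci, hciK, hci⟩ := H.inv _ (hdK v0) hd0
          set e : List ℕ+ → AA := fun v => ci * d v with he
          have heK : ∀ v, e v ∈ KN N hN := fun v => (KN N hN).mul_mem hciK (hdK v)
          have he0 : e v0 = 1 := by rw [he]; simp only; rw [mul_comm, hci]
          set ω' : AA := ci * ω with hω'
          have hω'W : ω' ∈ W (KN N hN) (yw N) t := mul_mem_W hciK hω
          have hz : ∑ v ∈ V, d v * yw N v + ω = d v0 * (∑ v ∈ V, e v * yw N v + ω') := by
            have h1 : ∑ v ∈ V, e v * yw N v + ω' = ci * (∑ v ∈ V, d v * yw N v + ω) := by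
              rw [mul_add, Finset.mul_sum, hω', he]
              congr 1
              exact Finset.sum_congr rfl fun v _ => by ring
            rw [h1, ← mul_assoc, hci, one_mul]
          rw [hz]
          refine Sz_mul (Sz_K (hdK v0)) (Sz_of_diff ?_)
          have h2 : sig (∑ v ∈ V, e v * yw N v + ω') - (∑ v ∈ V, e v * yw N v + ω') =
              ∑ v ∈ V, (sig (e v) - e v) * yw N v +
                (∑ v ∈ V, sig (e v) * (sig (yw N v) - yw N v) + (sig ω' - ω')) := by
            rw [map_add, map_sum]
            have h3 : ∑ v ∈ V, sig (e v) * (sig (yw N v) - yw N v) =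
                ∑ v ∈ V, sig (e v * yw N v) - ∑ v ∈ V, e v * yw N v -
                  ∑ v ∈ V, (sig (e v) - e v) * yw N v := by
              rw [← Finset.sum_sub_distrib, ← Finset.sum_sub_distrib]
              refine Finset.sum_congr rfl fun v _ => ?_
              rw [map_mul sig (e v) (yw N v)]
              ring
            rw [h3]
            ring
          rw [h2, ← Finset.add_sum_erase V (fun v => (sig (e v) - e v) * yw N v) hv0, he0, map_one,
            sub_self, zero_mul, zero_add]
          refine ihr _ (fun v => sig (e v) - e v) _ hcard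
            (fun v hv => hVt v (Finset.mem_of_mem_erase hv))
            (fun v => (KN N hN).sub_mem (H.stable _ (heK v)) (heK v)) ?_
          have h5 : sig ω' - ω' ∈ W (KN N hN) (yw N) t :=
            (W (KN N hN) (yw N) t).sub_mem (H.W_stable t hω'W) hω'W
          refine (W (KN N hN) (yw N) t).add_mem
            ((W (KN N hN) (yw N) t).sum_mem fun v hv => ?_) h5
          have h4 := H.step v
          rw [hVt v hv] at h4
          exact mul_mem_W (H.stable _ (heK v)) h4
    intro z hz
    obtain ⟨V, d, ω, hV, hd, hω, hzd⟩ := W_succ hz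
    rw [hzd]
    exact main V.card V d ω rfl hV hd hω

/-- **linear independence at the primes** -/
theorem hs_prime (Λ : Finset (List ℕ+)) (h Y : ℕ) (c : Fin (h + 1) × Λ → ℚ)
    (hc : ∀ q : ℕ, q.Prime → Y ≤ q →
      ∑ x : Fin (h + 1) × Λ, c x * (hs x.2.1 q / (q : ℚ) ^ (x.1 : ℕ)) = 0) : c = 0 := by
  classical
  set e : List ℕ+ → AA := fun w => if hw : w ∈ Λ then
    ∑ i : Fin (h + 1), kq (c (i, ⟨w, hw⟩)) * qj 1 0 ^ (i : ℕ) else 0 with he
  have heK : ∀ w, e w ∈ KN 1 le_rfl := by
    intro w
    rw [he]
    simp only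
    split_ifs with hw
    · exact (KN 1 le_rfl).sum_mem fun i _ =>
        (KN 1 le_rfl).mul_mem (kq_mem 1 le_rfl _) ((KN 1 le_rfl).pow_mem (qj_mem 1 le_rfl 0) _)
    · exact (KN 1 le_rfl).zero_mem
  have he2 : ∀ w : Λ, e w.1 = gr fun m => ∑ i : Fin (h + 1), c (i, w) *
      (1 / ((1 + 1 * m : ℕ) : ℚ)) ^ (i : ℕ) := by
    intro w
    rw [gr_sum, he]
    simp only [w.2, dite_true]
    refine Finset.sum_congr rfl fun i _ => ?_
    rw [qj, gr_pow, kq_apply, gr_mul]
    rfl
  set F : ℕ → ℚ := fun k => ∑ x : Fin (h + 1) × Λ, c x * (hs x.2.1 k / (k : ℚ) ^ (x.1 : ℕ)) with hF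
  have hsum : ∑ w ∈ Λ, e w * yw 1 w = gr fun m => F (1 + 1 * m) := by
    rw [← Finset.sum_coe_sort]
    have h1 : ∀ w : Λ, e w.1 * yw 1 w.1 = gr fun m => ∑ i : Fin (h + 1), c (i, w) *
        (hs w.1 (1 + 1 * m) / ((1 + 1 * m : ℕ) : ℚ) ^ (i : ℕ)) := by
      intro w
      rw [he2, yw, gr_mul]
      congr 1
      funext m
      rw [Finset.sum_mul]
      refine Finset.sum_congr rfl fun i _ => ?_
      rw [one_div, inv_pow]
      ring
    rw [Finset.sum_congr rfl fun w _ => h1 w, ← gr_sum]
    congr 1
    funext m
    rw [hF]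
    simp only
    rw [Fintype.sum_prod_type, Finset.sum_comm]
  have hlen : ∃ t, ∀ w ∈ Λ, w.length < t := by
    refine ⟨∑ w ∈ Λ, w.length + 1, fun w hw => ?_⟩
    have := Finset.single_le_sum (f := fun w : List ℕ+ => w.length) (fun _ _ => Nat.zero_le _) hw
    omega
  obtain ⟨t, ht⟩ := hlen
  have hW : ∑ w ∈ Λ, e w * yw 1 w ∈ W (KN 1 le_rfl) (yw 1) t :=
    (W _ _ t).sum_mem fun w hw => mul_mem_W (heK w) (mem_W (ht w hw))
  have hS := Sz_W 1 le_rfl t _ hW
  rw [hsum, Sz_gr] at hS
  have hne : ∀ m0 : ℕ, (∀ m, m0 ≤ m → F (1 + 1 * m) ≠ 0) → False := by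
    intro m0 hm0
    obtain ⟨q, hq, hqp⟩ := Nat.exists_infinite_primes (m0 + Y + 2)
    have h1 := hc q hqp (by omega)
    apply hm0 (q - 1) (by omega)
    rw [show 1 + 1 * (q - 1) = q by omega]
    exact h1
  rcases hS with h1 | h1 | h1
  · rw [eventually_atTop] at h1
    obtain ⟨m0, hm0⟩ := h1
    refine hs_ind Λ h 1 (m0 + 1) le_rfl c fun k hk _ => ?_
    have h2 : F (1 + 1 * (k - 1)) = 0 := hm0 (k - 1) (by omega)
    rw [show 1 + 1 * (k - 1) = k by omega] at h2
    exact h2
  · rw [eventually_atTop] at h1
    obtain ⟨m0, hm0⟩ := h1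
    exact (hne m0 fun m hm => (hm0 m hm).ne').elim
  · rw [eventually_atTop] at h1
    obtain ⟨m0, hm0⟩ := h1
    exact (hne m0 fun m hm => (hm0 m hm).ne).elim

end Pool.Agent.TH883.Zg
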