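import Pool.Agent.TH883.Zg.Ind

/-!
# The general theorem from independence away from finitely many primes (helper883)
-/

set_option autoImplicit false

namespace Pool.Agent.TH883.Zg

open Finset Filter Topology Pool.Agent.TH507.ZS

/-- **independence over Dirichlet polynomials from independence away from finitely many primes** -/
theorem dir_ind' {J : Type} [Fintype J] (g : J → ArithmeticFunction ℚ)
    (hind : ∀ N : ℕ, 1 ≤ N → ∀ c : J → ℚ,
      (∀ k, 1 ≤ k → k.Coprime N → ∑ j, c j * g j k = 0) → c = 0)
    (p : J → ArithmeticFunction ℚ) (hp : ∀ j, FS (p j)) (h0 : ∑ j, p j * g j = 0) (j : J) :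
    p j = 0 := by
  classical
  choose N hN using hp
  set X : ℕ := ∑ j, N j with hX
  have hNX : ∀ j k, X ≤ k → p j k = 0 := fun j k hk => hN j k
    ((single_le_sum (f := N) (fun _ _ => Nat.zero_le _) (mem_univ j)).trans hk)
  have key : ∀ d : ℕ, ∀ j, p j d = 0 := by
    intro d
    induction d using Nat.strong_induction_on with
    | _ d ih =>
      rcases Nat.eq_zero_or_pos d with rfl | hd
      · intro j
        simp
      · have h1 := hind (X.factorial) (Nat.factorial_pos X) (fun j => p j d) (fun k hk hkc => by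
          have h2 : ∀ j, (p j * g j) (d * k) = p j d * g j k := by
            intro j
            rw [ArithmeticFunction.mul_apply,
              Nat.sum_divisorsAntidiagonal (fun x y => p j x * g j y),
              sum_eq_single_of_mem d
                (Nat.mem_divisors.2 ⟨Dvd.intro k rfl, Nat.mul_ne_zero (by omega) (by omega)⟩)]
            · rw [Nat.mul_div_cancel_left k hd]
            · intro x hx hne
              have hx' := (Nat.mem_divisors.1 hx).1
              have hx0 : 0 < x := Nat.pos_of_mem_divisors hx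
              rcases lt_or_ge x d with hlt | hge
              · rw [ih x hlt j, zero_mul]
              · rcases le_or_gt X x with hXx | hxX
                · rw [hNX j x hXx, zero_mul]
                · exfalso
                  have h3 : x.Coprime k :=
                    Nat.Coprime.coprime_dvd_left (Nat.dvd_factorial hx0 hxX.le) hkc.symm
                  have h4 : x ∣ d := Nat.Coprime.dvd_of_dvd_mul_right h3 hx'
                  have h5 := Nat.le_of_dvd hd h4
                  omega
          have h3 : (∑ j, p j * g j) (d * k) = ∑ j, (p j * g j) (d * k) := by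
            have h4 : ∀ s : Finset J,
                (∑ j ∈ s, p j * g j) (d * k) = ∑ j ∈ s, (p j * g j) (d * k) := by
              intro s
              induction s using Finset.induction_on with
              | empty => rfl
              | insert a s ha ih =>
                rw [sum_insert ha, sum_insert ha, ArithmeticFunction.add_apply, ih]
            exact h4 univ
          rw [h0] at h3
          rw [← sum_congr rfl fun j _ => h2 j, ← h3]
          rfl)
        intro j
        exact congrFun h1 j
  exact ArithmeticFunction.ext fun d => key d j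

/-- **the main theorem, without and with a constant term** -/
theorem main' {J : Type} [Fintype J] (g : J → ArithmeticFunction ℚ) (hg : ∀ j, PB (g j))
    (hind : ∀ N : ℕ, 1 ≤ N → ∀ c : J → ℚ,
      (∀ k, 1 ≤ k → k.Coprime N → ∑ j, c j * g j k = 0) → c = 0)
    (C : ℝ) : ∃ B : ℝ, 1 < B ∧ ∃ n0 : ℕ, ∀ n : ℕ, n0 ≤ n → ∀ a : J → ℤ, a ≠ 0 →
      (∀ j, |(a j : ℝ)| ≤ C ^ n) → (B ^ n)⁻¹ < |∑ j, (a j : ℝ) * dser (g j) n| :=
  main g hg (dir_ind' g hind) C

lemma dser_congr {f g : ℕ → ℚ} (h : ∀ k, 1 ≤ k → f k = g k) (n : ℕ) : dser f n = dser g n := by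
  rw [dser, dser]
  exact tsum_congr fun k => by rw [h (k + 1) (by omega)]

/-- an arithmetic function from any function -/
def af (f : ℕ → ℚ) : ArithmeticFunction ℚ := ⟨fun k => if k = 0 then 0 else f k, by simp⟩

lemma af_apply (f : ℕ → ℚ) {k : ℕ} (hk : 1 ≤ k) : af f k = f k := by
  show (if k = 0 then 0 else f k) = f k
  rw [if_neg (by omega)]

/-- **with a constant term of any size** -/
theorem main_const {J : Type} [Fintype J] (g : J → ℕ → ℚ) (A : ℕ)
    (hg : ∀ j k, 1 ≤ k → |(g j k : ℝ)| ≤ A * (k : ℝ) ^ A)
    (hind : ∀ N X : ℕ, 1 ≤ N → ∀ c : J → ℚ,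
      (∀ k, X ≤ k → k.Coprime N → ∑ j, c j * g j k = 0) → c = 0)
    (C : ℝ) : ∃ B : ℝ, 1 < B ∧ ∃ n0 : ℕ, ∀ n : ℕ, n0 ≤ n → ∀ (a : ℤ) (c : J → ℤ),
      (a ≠ 0 ∨ c ≠ 0) → (∀ j, |(c j : ℝ)| ≤ C ^ n) →
      (B ^ n)⁻¹ < |(a : ℝ) + ∑ j, (c j : ℝ) * dser (g j) n| := by
  classical
  set G : Option J → ArithmeticFunction ℚ := fun j => match j with
    | none => 1
    | some j => af (g j) with hG
  have hGb : ∀ j, PB (G j) := by
    intro j
    cases j with
    | none => exact Rep.one.pb
    | some j =>
      refine ⟨A, fun k hk => ?_⟩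
      show |((af (g j) k : ℚ) : ℝ)| ≤ _
      rw [af_apply (g j) hk]
      exact hg j k hk
  have hGi : ∀ N : ℕ, 1 ≤ N → ∀ c : Option J → ℚ,
      (∀ k, 1 ≤ k → k.Coprime N → ∑ j, c j * G j k = 0) → c = 0 := by
    intro N hN c hc
    have h1 : (fun j => c (some j)) = 0 := hind N 2 hN _ (fun k hk hkc => by
      have h2 := hc k (by omega) hkc
      rw [Fintype.sum_option] at h2
      have h3 : G none k = 0 := ArithmeticFunction.one_apply_ne (by omega)
      rw [h3, mul_zero, zero_add] at h2
      rw [← h2]
      refine sum_congr rfl fun j _ => ?_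
      show c (some j) * g j k = c (some j) * af (g j) k
      rw [af_apply (g j) (by omega)])
    have h4 := hc 1 le_rfl (Nat.coprime_one_left N)
    rw [Fintype.sum_option, sum_eq_zero (fun j _ => by
      rw [show c (some j) = 0 from congrFun h1 j, zero_mul]), add_zero] at h4
    have h5 : G none 1 = 1 := ArithmeticFunction.one_one
    rw [h5, mul_one] at h4
    funext j
    cases j with
    | none => exact h4
    | some j => exact congrFun h1 j
  -- the values are bounded
  set K : ℝ := A * Z2 with hK
  have hK0 : 0 ≤ K := mul_nonneg (Nat.cast_nonneg _) Z2_nonneg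
  have hbd : ∀ j n, A + 2 ≤ n → |dser (g j) n| ≤ K := by
    intro j n hn
    have h1 := tail (hg j) (le_refl 1) hn
    simpa using h1
  set C1 : ℝ := max 1 |C| with hC1
  have hC11 : 1 ≤ C1 := le_max_left _ _
  set D : ℝ := Fintype.card J * K + 1 with hD
  have hD1 : 1 ≤ D := by
    have : 0 ≤ (Fintype.card J : ℝ) * K := by positivity
    linarith only [this, hD]
  obtain ⟨B, hB, n0, hmain⟩ := main' G hGb hGi (2 * D * C1)
  refine ⟨max B 2, lt_max_of_lt_left hB, n0 + A + 2, fun n hn a c hac hcC => ?_⟩
  have hCn : ∀ j, |(c j : ℝ)| ≤ C1 ^ n := fun j => (hcC j).trans ((le_abs_self _).trans (by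
    rw [abs_pow]
    exact pow_le_pow_left₀ (abs_nonneg _) (le_max_right _ _) _))
  have hn1 : n ≠ 0 := by omega
  have hB0 : (0 : ℝ) < B := by linarith only [hB]
  have hsumK : |∑ j, (c j : ℝ) * dser (g j) n| ≤ Fintype.card J * K * C1 ^ n := by
    refine (abs_sum_le_sum_abs _ _).trans ?_
    have h1 : ∀ j ∈ (univ : Finset J), |(c j : ℝ) * dser (g j) n| ≤ C1 ^ n * K := by
      intro j _
      rw [abs_mul]
      exact mul_le_mul (hCn j) (hbd j n (by omega)) (abs_nonneg _) (by positivity)
    refine (sum_le_sum h1).trans (le_of_eq ?_)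
    rw [sum_const, card_univ, nsmul_eq_mul]
    ring
  have hC1n : 1 ≤ C1 ^ n := one_le_pow₀ hC11
  have hDn : D ≤ D ^ n := le_self_pow₀ hD1 hn1
  have h2n : (2 : ℝ) ≤ 2 ^ n := le_self_pow₀ (by norm_num) hn1
  by_cases ha : |(a : ℝ)| ≤ (2 * D * C1) ^ n
  · have h1 := hmain n (by omega) (fun j => match j with
      | none => a
      | some j => c j) (by
        intro h0
        rcases hac with h2 | h2
        · exact h2 (congrFun h0 none)
        · apply h2
          funext j
          exact congrFun h0 (some j)) (by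
        intro j
        cases j with
        | none => exact ha
        | some j =>
          refine (hCn j).trans ?_
          refine pow_le_pow_left₀ (by linarith only [hC11]) ?_ _
          have : 1 * C1 ≤ 2 * D * C1 :=
            mul_le_mul_of_nonneg_right (by linarith only [hD1]) (by linarith only [hC11])
          linarith only [this])
    rw [Fintype.sum_option] at h1
    have h3 : dser (G none) n = 1 := dser_one n
    have h4 : ∀ j, dser (G (some j)) n = dser (g j) n := fun j =>
      dser_congr (fun k hk => af_apply (g j) hk) n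
    simp only [h3, h4, mul_one] at h1
    refine lt_of_le_of_lt ?_ h1
    exact inv_anti₀ (pow_pos hB0 _) (pow_le_pow_left₀ hB0.le (le_max_left _ _) _)
  · push Not at ha
    have h1 : (1 : ℝ) ≤ |(a : ℝ) + ∑ j, (c j : ℝ) * dser (g j) n| := by
      have h2 : |(a : ℝ)| ≤ |(a : ℝ) + ∑ j, (c j : ℝ) * dser (g j) n| +
          |∑ j, (c j : ℝ) * dser (g j) n| := by
        have h3 := abs_sub ((a : ℝ) + ∑ j, (c j : ℝ) * dser (g j) n)
          (∑ j, (c j : ℝ) * dser (g j) n)
        rwa [add_sub_cancel_right] at h3
      have h4 : 2 * (D * C1 ^ n) ≤ (2 * D * C1) ^ n := by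
        rw [mul_pow, mul_pow]
        calc 2 * (D * C1 ^ n) = 2 * D * C1 ^ n := by ring
          _ ≤ 2 ^ n * D ^ n * C1 ^ n := by gcongr
      have h5 : (Fintype.card J : ℝ) * K * C1 ^ n + C1 ^ n = D * C1 ^ n := by rw [hD]; ring
      have h6 : C1 ^ n ≤ D * C1 ^ n := le_mul_of_one_le_left (by positivity) hD1
      linarith only [h2, ha, h4, h5, h6, hsumK, hC1n]
    have h7 : ((max B 2) ^ n)⁻¹ < 1 := by
      have h8 : (1 : ℝ) < (max B 2) ^ n := one_lt_pow₀ (lt_max_of_lt_left hB) hn1
      exact inv_lt_one_of_one_lt₀ h8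
    linarith only [h1, h7]

end Pool.Agent.TH883.Zg
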