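import Pool.Agent.TH883.Zg.Alg
import Pool.Agent.TH883.Zg.Sign
import Pool.Agent.TH507.ZS.CZ

/-!
# Polynomials in coloured multiple zeta values (sixth roots of unity, helper883)
-/

set_option autoImplicit false

namespace Pool.Agent.TH883.Zg

open Filter Topology Pool.Agent.TH507.HS Pool.Agent.TH507.ZS

/-- **combinations of words have eventually constant sign**, abstract form -/
theorem Sz_gen {ι : Type} {K : Subring AA} {y : List ι → AA} {f : ι → AA}
    (H : Hyp K y sig f kq) (hK : ∀ x ∈ K, Sz x) (t : ℕ) : ∀ z ∈ W K y t, Sz z := by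
  classical
  induction t with
  | zero =>
    intro z hz
    have h1 : W K y 0 = ⊥ := by
      unfold W
      rw [Submodule.span_eq_bot]
      rintro x ⟨w, hw, -⟩
      exact absurd hw (Nat.not_lt_zero _)
    rw [h1, Submodule.mem_bot] at hz
    rw [hz, ← gr_zero, Sz_gr]
    exact Or.inl (Eventually.of_forall fun _ => rfl)
  | succ t ih =>
    have main : ∀ (r : ℕ) (V : Finset (List ι)) (d : List ι → AA) (ω : AA), V.card = r →
        (∀ v ∈ V, v.length = t) → (∀ v, d v ∈ K) → ω ∈ W K y t →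
        Sz (∑ v ∈ V, d v * y v + ω) := by
      intro r
      induction r with
      | zero =>
        intro V d ω hV _ _ hω
        rw [Finset.card_eq_zero] at hV
        rw [hV, Finset.sum_empty, zero_add]
        exact ih ω hω
      | succ r ihr =>
        intro V d ω hV hVt hdK hω
        obtain ⟨v0, hv0⟩ : V.Nonempty := by
          rw [← Finset.card_pos]
          omega
        have hcard : (V.erase v0).card = r := by
          rw [Finset.card_erase_of_mem hv0, hV]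
          rfl
        by_cases hd0 : d v0 = 0
        · rw [← Finset.add_sum_erase V _ hv0, hd0, zero_mul, zero_add]
          exact ihr _ d ω hcard (fun v hv => hVt v (Finset.mem_of_mem_erase hv)) hdK hω
        · obtain ⟨ci, hciK, hci⟩ := H.inv _ (hdK v0) hd0
          set e : List ι → AA := fun v => ci * d v with he
          have heK : ∀ v, e v ∈ K := fun v => K.mul_mem hciK (hdK v)
          have he0 : e v0 = 1 := by rw [he]; simp only; rw [mul_comm, hci]
          set ω' : AA := ci * ω with hω'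
          have hω'W : ω' ∈ W K y t := mul_mem_W hciK hω
          have hz : ∑ v ∈ V, d v * y v + ω = d v0 * (∑ v ∈ V, e v * y v + ω') := by
            have h1 : ∑ v ∈ V, e v * y v + ω' = ci * (∑ v ∈ V, d v * y v + ω) := by
              rw [mul_add, Finset.mul_sum, hω', he]
              congr 1
              exact Finset.sum_congr rfl fun v _ => by ring
            rw [h1, ← mul_assoc, hci, one_mul]
          rw [hz]
          refine Sz_mul (hK _ (hdK v0)) (Sz_of_diff ?_)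
          have h2 : sig (∑ v ∈ V, e v * y v + ω') - (∑ v ∈ V, e v * y v + ω') =
              ∑ v ∈ V, (sig (e v) - e v) * y v +
                (∑ v ∈ V, sig (e v) * (sig (y v) - y v) + (sig ω' - ω')) := by
            rw [map_add, map_sum]
            have h3 : ∑ v ∈ V, sig (e v) * (sig (y v) - y v) =
                ∑ v ∈ V, sig (e v * y v) - ∑ v ∈ V, e v * y v -
                  ∑ v ∈ V, (sig (e v) - e v) * y v := by
              rw [← Finset.sum_sub_distrib, ← Finset.sum_sub_distrib]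
              refine Finset.sum_congr rfl fun v _ => ?_
              rw [map_mul sig (e v) (y v)]
              ring
            rw [h3]
            ring
          rw [h2, ← Finset.add_sum_erase V (fun v => (sig (e v) - e v) * y v) hv0, he0, map_one,
            sub_self, zero_mul, zero_add]
          refine ihr _ (fun v => sig (e v) - e v) _ hcard
            (fun v hv => hVt v (Finset.mem_of_mem_erase hv))
            (fun v => K.sub_mem (H.stable _ (heK v)) (heK v)) ?_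
          have h5 : sig ω' - ω' ∈ W K y t :=
            (W K y t).sub_mem (H.W_stable t hω'W) hω'W
          refine (W K y t).add_mem ((W K y t).sum_mem fun v hv => ?_) h5
          have h4 := H.step v
          rw [hVt v hv] at h4
          exact mul_mem_W (H.stable _ (heK v)) h4
    intro z hz
    obtain ⟨V, d, ω, hV, hd, hω, hzd⟩ := W_succ hz
    rw [hzd]
    exact main V.card V d ω rfl hV hd hω

/-- **linear independence of alternating harmonic sums on infinite sets of odd numbers** -/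
theorem hc_inf (Λ : Finset (List (ℕ+ × ℤˣ))) (h : ℕ) (c : Fin (h + 1) × Λ → ℚ)
    (hc0 : ∀ Y : ℕ, ∃ q : ℕ, Y ≤ q ∧ q % 2 = 1 ∧
      ∑ x : Fin (h + 1) × Λ, c x * (hc x.2.1 q / (q : ℚ) ^ (x.1 : ℕ)) = 0) : c = 0 := by
  classical
  have h21 : 1 ≤ 2 := by norm_num
  set e : List (ℕ+ × ℤˣ) → AA := fun w => if hw : w ∈ Λ then
    ∑ i : Fin (h + 1), kq (c (i, ⟨w, hw⟩)) * qj 2 0 ^ (i : ℕ) else 0 with he
  have heK : ∀ w, e w ∈ KN 2 h21 := by
    intro w
    rw [he]
    simp only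
    split_ifs with hw
    · exact (KN 2 h21).sum_mem fun i _ =>
        (KN 2 h21).mul_mem (kq_mem 2 h21 _) ((KN 2 h21).pow_mem (qj_mem 2 h21 0) _)
    · exact (KN 2 h21).zero_mem
  have he2 : ∀ w : Λ, e w.1 = gr fun m => ∑ i : Fin (h + 1), c (i, w) *
      (1 / ((1 + 2 * m : ℕ) : ℚ)) ^ (i : ℕ) := by
    intro w
    rw [gr_sum, he]
    simp only [w.2, dite_true]
    refine Finset.sum_congr rfl fun i _ => ?_
    rw [qj, gr_pow, kq_apply, gr_mul]
    rfl
  set F : ℕ → ℚ := fun k => ∑ x : Fin (h + 1) × Λ, c x * (hc x.2.1 k / (k : ℚ) ^ (x.1 : ℕ)) with hF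
  have hsum : ∑ w ∈ Λ, e w * zw 2 w = gr fun m => F (1 + 2 * m) := by
    rw [← Finset.sum_coe_sort]
    have h1 : ∀ w : Λ, e w.1 * zw 2 w.1 = gr fun m => ∑ i : Fin (h + 1), c (i, w) *
        (hc w.1 (1 + 2 * m) / ((1 + 2 * m : ℕ) : ℚ) ^ (i : ℕ)) := by
      intro w
      rw [he2, zw, gr_mul]
      congr 1
      funext m
      rw [Finset.sum_mul]
      refine Finset.sum_congr rfl fun i _ => ?_
      rw [one_div, inv_pow]
      ring
    rw [Finset.sum_congr rfl fun w _ => h1 w, ← gr_sum]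
    congr 1
    funext m
    rw [hF]
    simp only
    rw [Fintype.sum_prod_type, Finset.sum_comm]
  have hlen : ∃ t, ∀ w ∈ Λ, w.length < t := by
    refine ⟨∑ w ∈ Λ, w.length + 1, fun w hw => ?_⟩
    have := Finset.single_le_sum (f := fun w : List (ℕ+ × ℤˣ) => w.length)
      (fun _ _ => Nat.zero_le _) hw
    omega
  obtain ⟨t, ht⟩ := hlen
  have hW : ∑ w ∈ Λ, e w * zw 2 w ∈ W (KN 2 h21) (zw 2) t :=
    (W _ _ t).sum_mem fun w hw => mul_mem_W (heK w) (mem_W (ht w hw))
  have hS := Sz_gen (hypc 2 h21 (dvd_refl 2)) (fun x hx => Sz_K hx) t _ hW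
  rw [hsum, Sz_gr] at hS
  have hne : ∀ m0 : ℕ, (∀ m, m0 ≤ m → F (1 + 2 * m) ≠ 0) → False := by
    intro m0 hm0
    obtain ⟨q, hq, hq2, hq3⟩ := hc0 (2 * m0 + 1)
    apply hm0 ((q - 1) / 2) (by omega)
    rw [show 1 + 2 * ((q - 1) / 2) = q by omega]
    exact hq3
  rcases hS with h1 | h1 | h1
  · exact hc_ind Λ h 2 h21 (dvd_refl 2) c h1
  · rw [eventually_atTop] at h1
    obtain ⟨m0, hm0⟩ := h1
    exact (hne m0 fun m hm => (hm0 m hm).ne').elim
  · rw [eventually_atTop] at h1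
    obtain ⟨m0, hm0⟩ := h1
    exact (hne m0 fun m hm => (hm0 m hm).ne).elim

/-- the primitive sixth root of unity -/
noncomputable def om : ℂ := Complex.exp (Real.pi / 3 * Complex.I)

lemma om_eq : om = ⟨1 / 2, Real.sqrt 3 / 2⟩ := by
  have h1 : ((Real.pi : ℂ) / 3) = ((Real.pi / 3 : ℝ) : ℂ) := by push_cast; rfl
  rw [om, h1, Complex.exp_mul_I, ← Complex.ofReal_cos, ← Complex.ofReal_sin,
    Real.cos_pi_div_three, Real.sin_pi_div_three]
  apply Complex.ext
  · simp
  · simp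

lemma sq3 : Real.sqrt 3 * Real.sqrt 3 = 3 := Real.mul_self_sqrt (by norm_num)

lemma om_sq : om ^ 2 = om - 1 := by
  rw [om_eq, sq]
  apply Complex.ext
  · simp only [Complex.mul_re, Complex.sub_re, Complex.one_re]
    linarith [sq3]
  · simp only [Complex.mul_im, Complex.sub_im, Complex.one_im]
    ring

lemma om_cube : om ^ 3 = -1 := by
  have h1 : om ^ 3 = om ^ 2 * om := by ring
  rw [h1, om_sq, sub_mul, ← sq, om_sq]
  ring

lemma om_six : om ^ 6 = 1 := by
  have h1 : om ^ 6 = (om ^ 3) ^ 2 := by ring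
  rw [h1, om_cube]
  ring

lemma pow_mod6 {w : ℂ} (hw : w ^ 6 = 1) (q : ℕ) : w ^ q = w ^ (q % 6) := by
  conv_lhs => rw [← Nat.div_add_mod q 6]
  rw [pow_add, pow_mul, hw, one_pow, one_mul]

/-- imaginary parts of sixth roots of unity -/
lemma im_root {w : ℂ} (hw : w ^ 6 = 1) : ∃ r : ℚ, |(r : ℝ)| ≤ 1 ∧ w.im = r * Real.sqrt 3 := by
  have h3 : (0 : ℝ) < Real.sqrt 3 := Real.sqrt_pos.2 (by norm_num)
  have key : ∀ x : ℝ, x * x = 3 / 4 → ∃ r : ℚ, |(r : ℝ)| ≤ 1 ∧ x = r * Real.sqrt 3 := by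
    intro x hx
    have h1 : (x - Real.sqrt 3 / 2) * (x + Real.sqrt 3 / 2) = 0 := by
      have : (x - Real.sqrt 3 / 2) * (x + Real.sqrt 3 / 2) =
          x * x - Real.sqrt 3 * Real.sqrt 3 / 4 := by ring
      rw [this, hx, sq3]
      ring
    rcases mul_eq_zero.1 h1 with h2 | h2
    · refine ⟨1 / 2, by norm_num, ?_⟩
      push_cast
      linarith
    · refine ⟨-1 / 2, by norm_num [abs_div], ?_⟩
      push_cast
      linarith
  have h1 : (w - 1) * (w + 1) * (w ^ 2 + w + 1) * (w ^ 2 - w + 1) = 0 := by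
    have : (w - 1) * (w + 1) * (w ^ 2 + w + 1) * (w ^ 2 - w + 1) = w ^ 6 - 1 := by ring
    rw [this, hw, sub_self]
  rcases mul_eq_zero.1 h1 with h1 | h1
  · rcases mul_eq_zero.1 h1 with h1 | h1
    · refine ⟨0, by norm_num, ?_⟩
      rcases mul_eq_zero.1 h1 with h1 | h1
      · rw [sub_eq_zero.1 h1]
        simp
      · rw [eq_neg_of_add_eq_zero_left h1]
        simp
    · apply key
      have hre := congrArg Complex.re h1
      have him := congrArg Complex.im h1
      simp only [sq, Complex.add_re, Complex.mul_re, Complex.one_re, Complex.zero_re] at hre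
      simp only [sq, Complex.add_im, Complex.mul_im, Complex.one_im, Complex.zero_im] at him
      have h2 : w.im * (2 * w.re + 1) = 0 := by linarith
      rcases mul_eq_zero.1 h2 with h4 | h4
      · rw [h4] at hre
        nlinarith [sq_nonneg (2 * w.re + 1)]
      · have h5 : w.re = -1 / 2 := by linarith
        rw [h5] at hre
        linarith
  · apply key
    have hre := congrArg Complex.re h1
    have him := congrArg Complex.im h1
    simp only [sq, Complex.add_re, Complex.sub_re, Complex.mul_re, Complex.one_re,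
      Complex.zero_re] at hre
    simp only [sq, Complex.add_im, Complex.sub_im, Complex.mul_im, Complex.one_im,
      Complex.zero_im] at him
    have h2 : w.im * (2 * w.re - 1) = 0 := by linarith
    rcases mul_eq_zero.1 h2 with h4 | h4
    · rw [h4] at hre
      nlinarith [sq_nonneg (2 * w.re - 1)]
    · have h5 : w.re = 1 / 2 := by linarith
      rw [h5] at hre
      linarith

lemma norm_root {z : ℂ} (hz : z ^ 6 = 1) : ‖z‖ = 1 := by
  have h2 : ‖z‖ ^ 6 = 1 := by rw [← norm_pow, hz, norm_one]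
  exact (pow_eq_one_iff_of_nonneg (norm_nonneg _) (by norm_num)).1 h2

lemma re_five {z : ℂ} (hz : z ^ 6 = 1) : (z ^ 5).re = z.re := by
  have h1 : z ^ 5 = z⁻¹ := eq_inv_of_mul_eq_one_left (by
    rw [← pow_succ]
    exact hz)
  have h2 : Complex.normSq z = 1 := by
    rw [Complex.normSq_eq_norm_sq, norm_root hz]
    ring
  rw [h1, Complex.inv_re, h2, div_one]

lemma im_om_five : (om ^ 5).im = -(Real.sqrt 3 / 2) := by
  have h1 : om ^ 5 = 1 - om := by
    have h2 : om ^ 5 = om ^ 3 * om ^ 2 := by ring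
    rw [h2, om_cube, om_sq]
    ring
  rw [h1, om_eq]
  simp

lemma im_om : om.im = Real.sqrt 3 / 2 := by rw [om_eq]

/-- **Polynomials in coloured multiple zeta values with one large argument.** -/
theorem clau_alg (z : ℂ) (hz : z ^ 6 = 1) (Λ : Finset (List (ℕ+ × ℤˣ))) (h d : ℕ) (C : ℝ) :
    ∃ B : ℝ, 1 < B ∧ ∃ n0 : ℕ, ∀ n : ℕ, n0 ≤ n →
      ∀ P : MvPolynomial ((Fin (h + 1) × Λ) ⊕ (Fin (h + 1) × Λ)) ℤ, P ≠ 0 → P.totalDegree ≤ d →
      (∀ e, |((P.coeff e : ℤ) : ℝ)| ≤ C ^ n) →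
      (B ^ n)⁻¹ < |MvPolynomial.aeval (Sum.elim
        (fun j : Fin (h + 1) × Λ => (lic z (n + j.1) j.2.1).re)
        (fun j : Fin (h + 1) × Λ => (lic om (n + j.1) j.2.1).im / Real.sqrt 3)) P| := by
  classical
  have h3p : (0 : ℝ) < Real.sqrt 3 := Real.sqrt_pos.2 (by norm_num)
  have hr : ∀ k : ℕ, ∃ r : ℚ, r ≠ 0 ∧ |(r : ℝ)| ≤ 1 ∧ (z ^ k).re = r := fun k => re_root (by
    rw [← pow_mul, mul_comm, pow_mul, hz, one_pow])
  choose ψ hψ0 hψ1 hψ using hr
  have hi : ∀ k : ℕ, ∃ r : ℚ, |(r : ℝ)| ≤ 1 ∧ (om ^ k).im = r * Real.sqrt 3 := fun k =>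
    im_root (by rw [← pow_mul, mul_comm, pow_mul, om_six, one_pow])
  choose χ hχ1 hχ using hi
  set g : (Fin (h + 1) × Λ) ⊕ (Fin (h + 1) × Λ) → ArithmeticFunction ℚ := Sum.elim
    (fun j => af (fun k => ψ k * hc j.2.1 k / (k : ℚ) ^ (j.1 : ℕ)))
    (fun j => af (fun k => χ k * hc j.2.1 k / (k : ℚ) ^ (j.1 : ℕ))) with hg
  have hgb1 : ∀ (θ : ℕ → ℚ), (∀ k, |(θ k : ℝ)| ≤ 1) → ∀ x : Fin (h + 1) × Λ,
      PB (af (fun k => θ k * hc x.2.1 k / (k : ℚ) ^ (x.1 : ℕ))) := by
    intro θ hθ x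
    refine ⟨x.2.1.length + 1, fun k hk => ?_⟩
    have h1 : (1 : ℝ) ≤ k := by exact_mod_cast hk
    rw [af_apply _ hk]
    push_cast
    rw [abs_div, abs_of_pos (by positivity : (0 : ℝ) < (k : ℝ) ^ (x.1 : ℕ)), abs_mul]
    refine (div_le_self (by positivity) (one_le_pow₀ h1)).trans ?_
    have h3 : (1 : ℝ) ≤ (x.2.1.length : ℝ) + 1 := by
      have : (0 : ℝ) ≤ (x.2.1.length : ℝ) := Nat.cast_nonneg _
      linarith only [this]
    calc |(θ k : ℝ)| * |(hc x.2.1 k : ℝ)| ≤ 1 * (k : ℝ) ^ x.2.1.length :=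
          mul_le_mul (hθ k) (hc_bound _ k hk) (abs_nonneg _) zero_le_one
      _ = (k : ℝ) ^ x.2.1.length := one_mul _
      _ ≤ (k : ℝ) ^ (x.2.1.length + 1) := pow_le_pow_right₀ h1 (by omega)
      _ ≤ ((x.2.1.length : ℝ) + 1) * (k : ℝ) ^ (x.2.1.length + 1) :=
          le_mul_of_one_le_left (by positivity) h3
  have hgb : ∀ j, PB (g j) := by
    intro j
    cases j with
    | inl x => exact hgb1 ψ hψ1 x
    | inr x => exact hgb1 χ hχ1 x
  -- values at the primes
  have hψq : ∀ q : ℕ, q % 6 = 1 ∨ q % 6 = 5 → ψ q = ψ 1 := by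
    intro q hq
    have h1 : ((ψ q : ℚ) : ℝ) = ((ψ 1 : ℚ) : ℝ) := by
      rw [← hψ, ← hψ, pow_mod6 hz q]
      rcases hq with hq | hq
      · rw [hq]
      · rw [hq, re_five hz, pow_one]
    exact_mod_cast h1
  have hχ1' : ∀ q : ℕ, q % 6 = 1 → χ q = 1 / 2 := by
    intro q hq
    have h1 := hχ q
    rw [pow_mod6 om_six q, hq, pow_one, im_om] at h1
    have h2 : ((χ q : ℚ) : ℝ) = ((1 / 2 : ℚ) : ℝ) := by
      have h4 : ((χ q : ℚ) : ℝ) * Real.sqrt 3 = 1 / 2 * Real.sqrt 3 := by rw [← h1]; ring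
      rw [mul_right_cancel₀ h3p.ne' h4]
      norm_num
    exact_mod_cast h2
  have hχ5' : ∀ q : ℕ, q % 6 = 5 → χ q = -(1 / 2) := by
    intro q hq
    have h1 := hχ q
    rw [pow_mod6 om_six q, hq, im_om_five] at h1
    have h2 : ((χ q : ℚ) : ℝ) = ((-(1 / 2) : ℚ) : ℝ) := by
      have h4 : ((χ q : ℚ) : ℝ) * Real.sqrt 3 = -(1 / 2) * Real.sqrt 3 := by rw [← h1]; ring
      rw [mul_right_cancel₀ h3p.ne' h4]
      norm_num
    exact_mod_cast h2
  have hpr : ∀ Y : ℕ, ∀ c : (Fin (h + 1) × Λ) ⊕ (Fin (h + 1) × Λ) → ℚ,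
      (∀ q : ℕ, q.Prime → Y ≤ q → ∑ j, c j * g j q = 0) → c = 0 := by
    intro Y c hc0
    have hsumq : ∀ (s : ℚ) (q : ℕ), q.Prime → Y ≤ q → (q % 6 = 1 ∨ q % 6 = 5) → χ q = s →
        ∑ x : Fin (h + 1) × Λ, (ψ 1 * c (Sum.inl x) + s * c (Sum.inr x)) *
          (hc x.2.1 q / (q : ℚ) ^ (x.1 : ℕ)) = 0 := by
      intro s q hq hqY hq6 hs
      have h1 := hc0 q hq hqY
      rw [Fintype.sum_sum_type, ← Finset.sum_add_distrib] at h1
      rw [← h1]
      refine Finset.sum_congr rfl fun x _ => ?_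
      have e1 : g (Sum.inl x) q = ψ q * hc x.2.1 q / (q : ℚ) ^ (x.1 : ℕ) := af_apply _ hq.one_lt.le
      have e2 : g (Sum.inr x) q = χ q * hc x.2.1 q / (q : ℚ) ^ (x.1 : ℕ) := af_apply _ hq.one_lt.le
      rw [e1, e2, hψq q hq6, hs]
      ring
    have hA : (fun x : Fin (h + 1) × Λ => ψ 1 * c (Sum.inl x) + 1 / 2 * c (Sum.inr x)) = 0 := by
      refine hc_inf Λ h _ fun Y' => ?_
      obtain ⟨q, hqY, hq, hq6⟩ := Nat.forall_exists_prime_gt_and_eq_mod (q := 6)
        (a := ((1 : ℕ) : ZMod 6)) (by simp) (Y + Y')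
      have h6 : q % 6 = 1 := (ZMod.natCast_eq_natCast_iff' q 1 6).1 hq6
      exact ⟨q, by omega, by omega, hsumq (1 / 2) q hq (by omega) (Or.inl h6) (hχ1' q h6)⟩
    have hB : (fun x : Fin (h + 1) × Λ => ψ 1 * c (Sum.inl x) + -(1 / 2) * c (Sum.inr x)) = 0 := by
      refine hc_inf Λ h _ fun Y' => ?_
      obtain ⟨q, hqY, hq, hq6⟩ := Nat.forall_exists_prime_gt_and_eq_mod (q := 6)
        (a := ((5 : ℕ) : ZMod 6)) (by decide) (Y + Y')
      have h6 : q % 6 = 5 := (ZMod.natCast_eq_natCast_iff' q 5 6).1 hq6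
      exact ⟨q, by omega, by omega, hsumq (-(1 / 2)) q hq (by omega) (Or.inr h6) (hχ5' q h6)⟩
    funext j
    cases j with
    | inl x =>
      have h1 := congrFun hA x
      have h2 := congrFun hB x
      simp only [Pi.zero_apply] at h1 h2
      have h3 : ψ 1 * c (Sum.inl x) = 0 := by linarith
      exact (mul_eq_zero.1 h3).resolve_left (hψ0 1)
    | inr x =>
      have h1 := congrFun hA x
      have h2 := congrFun hB x
      simp only [Pi.zero_apply] at h1 h2
      show c (Sum.inr x) = 0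
      linarith
  obtain ⟨B, hB, n0, hmain⟩ := alg_main g hgb hpr d C
  set A : ℕ := ∑ w ∈ Λ, w.length + 1 with hA
  refine ⟨B, hB, n0 + A + 2, fun n hn P hP hPd hPC => ?_⟩
  have h1 := hmain n (by omega) P hP hPd hPC
  have hsc : ∀ (w : ℂ), w ^ 6 = 1 → ∀ j : Fin (h + 1) × Λ,
      Summable fun k : ℕ => w ^ (k + 1) * ((hc j.2.1 (k + 1) : ℚ) : ℂ) /
        ((k + 1 : ℕ) : ℂ) ^ (n + (j.1 : ℕ)) := by
    intro w hw j
    have hb : ∀ k : ℕ, 1 ≤ k → |(hc j.2.1 k : ℝ)| ≤ A * (k : ℝ) ^ A := by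
      intro k hk
      have e1 : (1 : ℝ) ≤ k := by exact_mod_cast hk
      have e2 := Finset.single_le_sum (f := fun w : List (ℕ+ × ℤˣ) => w.length)
        (fun _ _ => Nat.zero_le _) j.2.2
      have e3 : (1 : ℝ) ≤ A := by
        have : 1 ≤ A := by omega
        exact_mod_cast this
      calc |(hc j.2.1 k : ℝ)| ≤ (k : ℝ) ^ j.2.1.length := hc_bound _ k hk
        _ ≤ (k : ℝ) ^ A := pow_le_pow_right₀ e1 (by omega)
        _ ≤ A * (k : ℝ) ^ A := le_mul_of_one_le_left (by positivity) e3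
    have hs := dser_summable hb (show A + 2 ≤ n + j.1 by omega)
    refine Summable.of_norm_bounded hs.abs ?_
    intro k
    rw [norm_div, norm_mul, norm_pow, norm_root hw, one_pow, one_mul, norm_pow,
      Complex.norm_natCast, abs_div,
      abs_of_pos (by positivity : (0 : ℝ) < ((k + 1 : ℕ) : ℝ) ^ (n + (j.1 : ℕ)))]
    have e4 : ‖((hc j.2.1 (k + 1) : ℚ) : ℂ)‖ = |(hc j.2.1 (k + 1) : ℝ)| := by
      rw [← Complex.ofReal_ratCast, Complex.norm_real, Real.norm_eq_abs]
    rw [e4]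
  have e5 : ∀ (w : ℂ) (j : Fin (h + 1) × Λ) (k : ℕ),
      w ^ (k + 1) * ((hc j.2.1 (k + 1) : ℚ) : ℂ) / ((k + 1 : ℕ) : ℂ) ^ (n + (j.1 : ℕ)) =
        (((hc j.2.1 (k + 1) : ℝ) / ((k + 1 : ℕ) : ℝ) ^ (n + (j.1 : ℕ)) : ℝ) : ℂ) * w ^ (k + 1) := by
    intro w j k
    push_cast
    ring
  have hdg : ∀ (θ : ℕ → ℚ) (j : Fin (h + 1) × Λ),
      dser (af (fun k => θ k * hc j.2.1 k / (k : ℚ) ^ (j.1 : ℕ))) n =
        ∑' k : ℕ, (θ (k + 1) : ℝ) *
          ((hc j.2.1 (k + 1) : ℝ) / ((k + 1 : ℕ) : ℝ) ^ (n + (j.1 : ℕ))) := by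
    intro θ j
    rw [dser]
    refine tsum_congr fun k => ?_
    rw [af_apply _ (show 1 ≤ k + 1 by omega)]
    push_cast
    rw [pow_add]
    field_simp
  have h2 : (fun j : (Fin (h + 1) × Λ) ⊕ (Fin (h + 1) × Λ) => dser (g j) n) = Sum.elim
        (fun j : Fin (h + 1) × Λ => (lic z (n + j.1) j.2.1).re)
        (fun j : Fin (h + 1) × Λ => (lic om (n + j.1) j.2.1).im / Real.sqrt 3) := by
    funext j
    cases j with
    | inl j =>
      show dser (af (fun k => ψ k * hc j.2.1 k / (k : ℚ) ^ (j.1 : ℕ))) n =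
        (lic z (n + j.1) j.2.1).re
      rw [hdg, lic, Complex.re_tsum (hsc z hz j)]
      refine tsum_congr fun k => ?_
      rw [e5, Complex.re_ofReal_mul, hψ]
      ring
    | inr j =>
      show dser (af (fun k => χ k * hc j.2.1 k / (k : ℚ) ^ (j.1 : ℕ))) n =
        (lic om (n + j.1) j.2.1).im / Real.sqrt 3
      rw [hdg, lic, Complex.im_tsum (hsc om om_six j), ← tsum_div_const]
      refine tsum_congr fun k => ?_
      rw [e5, Complex.im_ofReal_mul, hχ]
      field_simp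
  rw [h2] at h1
  exact h1

end Pool.Agent.TH883.Zg
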