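import Pool.Agent.TH883.Zg.Gen
import Pool.Agent.TH507.ZS.Mono

/-!
# Independence over Dirichlet polynomials, polynomials in consecutive values (helper883)
-/

set_option autoImplicit false

namespace Pool.Agent.TH883.Zg

open Finset Filter Topology Pool.Agent.TH507.ZS

/-- independence of multiplicative functions with different values at the primes -/
lemma mult_ind' {J : Type} [DecidableEq J] (g : J → ArithmeticFunction ℚ)
    (hg : ∀ j, (g j).IsMultiplicative)
    (hsep : ∀ i j, i ≠ j → ∀ Y : ℕ, ∃ p : ℕ, p.Prime ∧ Y ≤ p ∧ g i p ≠ g j p) (r : ℕ) :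
    ∀ T : Finset J, T.card = r → ∀ N : ℕ, 1 ≤ N → ∀ c : J → ℚ,
      (∀ k, 1 ≤ k → k.Coprime N → ∑ j ∈ T, c j * g j k = 0) → ∀ j ∈ T, c j = 0 := by
  induction r with
  | zero =>
    intro T hT N _ c _ j hj
    rw [Finset.card_eq_zero] at hT
    rw [hT] at hj
    simp at hj
  | succ r ih =>
    intro T hT N hN c hc j1 hj1
    have hother : ∀ j ∈ T, j ≠ j1 → c j = 0 := by
      intro j hj hne
      obtain ⟨p, hp, hpY, hpne⟩ := hsep j j1 hne (N + 1)
      have hpN : p.Coprime N := coprime_of_gt hp hN hpY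
      have h1 := ih (T.erase j1) (by rw [Finset.card_erase_of_mem hj1, hT]; rfl) (N * p)
        (Nat.mul_pos hN hp.pos) (fun i => c i * (g i p - g j1 p)) (by
          intro k hk hkc
          have hkN : k.Coprime N := Nat.Coprime.coprime_mul_right_right hkc
          have hkp : k.Coprime p := Nat.Coprime.coprime_mul_left_right hkc
          have h2 := hc k hk hkN
          have h3 := hc (p * k) (hk.trans (Nat.le_mul_of_pos_left _ hp.pos))
            (Nat.Coprime.mul_left hpN hkN)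
          have h4 : ∑ i ∈ T, c i * (g i p - g j1 p) * g i k = 0 := by
            have h5 : ∑ i ∈ T, c i * g i (p * k) = ∑ i ∈ T, c i * (g i p * g i k) :=
              Finset.sum_congr rfl fun i _ => by rw [(hg i).2 hkp.symm]
            rw [h5] at h3
            calc ∑ i ∈ T, c i * (g i p - g j1 p) * g i k =
                ∑ i ∈ T, (c i * (g i p * g i k) - g j1 p * (c i * g i k)) :=
                  Finset.sum_congr rfl fun i _ => by ring
              _ = 0 := by
                rw [Finset.sum_sub_distrib, h3, ← Finset.mul_sum, h2]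
                ring
          rw [← Finset.add_sum_erase T _ hj1] at h4
          rw [sub_self, mul_zero, zero_mul, zero_add] at h4
          exact h4) j (Finset.mem_erase.2 ⟨hne, hj⟩)
      exact (mul_eq_zero.1 h1).resolve_right (sub_ne_zero.2 hpne)
    have h2 := hc 1 le_rfl (Nat.coprime_one_left N)
    rw [Finset.sum_eq_single_of_mem j1 hj1] at h2
    · rw [(hg j1).1, mul_one] at h2
      exact h2
    · intro j hj hne
      rw [hother j hj hne, zero_mul]

/-- the convolution with a function of finite support, away from finitely many primes -/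
lemma conv_mul {p g : ArithmeticFunction ℚ} (hg : g.IsMultiplicative) {X : ℕ}
    (hp : ∀ k, X ≤ k → p k = 0) {m k : ℕ} (hm : m ≠ 0) (hk : k ≠ 0) (hmk : m.Coprime k)
    (hX : ∀ x, 1 ≤ x → x < X → x.Coprime k) : (p * g) (m * k) = (p * g) m * g k := by
  rw [ArithmeticFunction.mul_apply, ArithmeticFunction.mul_apply,
    Nat.sum_divisorsAntidiagonal (fun x y => p x * g y),
    Nat.sum_divisorsAntidiagonal (fun x y => p x * g y), sum_mul]
  symm
  have hsub : m.divisors ⊆ (m * k).divisors :=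
    Nat.divisors_subset_of_dvd (Nat.mul_ne_zero hm hk) (Dvd.intro k rfl)
  rw [← sum_subset hsub]
  · refine sum_congr rfl fun x hx => ?_
    have hx' := (Nat.mem_divisors.1 hx).1
    have hx0 : 0 < x := Nat.pos_of_mem_divisors hx
    have h1 : m * k / x = m / x * k := Nat.mul_div_right_comm hx' _
    rw [h1, hg.2 (Nat.Coprime.coprime_div_left hmk hx')]
    ring
  · intro x hx hx2
    have hx' := (Nat.mem_divisors.1 hx).1
    have hx0 : 0 < x := Nat.pos_of_mem_divisors hx
    by_cases h : X ≤ x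
    · rw [hp x h, zero_mul]
    · exfalso
      push Not at h
      apply hx2
      rw [Nat.mem_divisors]
      exact ⟨Nat.Coprime.dvd_of_dvd_mul_right (hX x hx0 h) hx', hm⟩

/-- **independence over Dirichlet polynomials** -/
theorem dir_ind {J : Type} [Fintype J] (g : J → ArithmeticFunction ℚ)
    (hg : ∀ j, (g j).IsMultiplicative)
    (hsep : ∀ i j, i ≠ j → ∀ Y : ℕ, ∃ p : ℕ, p.Prime ∧ Y ≤ p ∧ g i p ≠ g j p)
    (p : J → ArithmeticFunction ℚ) (hp : ∀ j, FS (p j)) (h0 : ∑ j, p j * g j = 0) (j : J) :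
    p j = 0 := by
  classical
  choose N hN using hp
  set X : ℕ := ∑ j, N j with hX
  have hNX : ∀ j k, X ≤ k → p j k = 0 := fun j k hk => hN j k
    ((single_le_sum (f := N) (fun _ _ => Nat.zero_le _) (mem_univ j)).trans hk)
  have key : ∀ m : ℕ, 1 ≤ m → ∀ j, (p j * g j) m = 0 := by
    intro m hm j
    refine mult_ind' g hg hsep _ univ rfl (m * X.factorial)
      (Nat.mul_pos hm (Nat.factorial_pos X)) (fun j => (p j * g j) m) (fun k hk hkc => ?_) j
      (mem_univ j)
    have hkm : m.Coprime k := (Nat.Coprime.coprime_mul_right_right hkc).symm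
    have hkX : (X.factorial).Coprime k := (Nat.Coprime.coprime_mul_left_right hkc).symm
    have h1 : (∑ j, p j * g j) (m * k) = ∑ j, (p j * g j) m * g j k := by
      have h2 : (∑ j, p j * g j) (m * k) = ∑ j, (p j * g j) (m * k) := by
        have h3 : ∀ s : Finset J, (∑ j ∈ s, p j * g j) (m * k) = ∑ j ∈ s, (p j * g j) (m * k) := by
          intro s
          induction s using Finset.induction_on with
          | empty => rfl
          | insert a s ha ih =>
            rw [sum_insert ha, sum_insert ha, ArithmeticFunction.add_apply, ih]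
        exact h3 univ
      rw [h2]
      refine sum_congr rfl fun j _ => ?_
      refine conv_mul (hg j) (hNX j) (by omega) (by omega) hkm fun x hx1 hx2 => ?_
      exact Nat.Coprime.coprime_dvd_left (Nat.dvd_factorial hx1 hx2.le) hkX
    rw [← h1, h0]
    rfl
  by_contra hne
  have hgne : g j ≠ 0 := by
    intro h
    have h1 := (hg j).1
    rw [h] at h1
    exact zero_ne_one h1
  refine mul_ne hne hgne (ArithmeticFunction.ext fun m => ?_)
  rcases Nat.eq_zero_or_pos m with rfl | hm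
  · simp
  · rw [key m hm j]
    rfl

/-- **monomials in consecutive values** -/
theorem mono_main (φ : ArithmeticFunction ℚ) (h1 : φ.IsMultiplicative) (h2 : PB φ) (v : ℚ)
    (hv : v ≠ 0) (hp : ∀ p : ℕ, p.Prime → φ p = v) (h d : ℕ) (C : ℝ) :
    ∃ B : ℝ, 1 < B ∧ ∃ n0 : ℕ, ∀ n : ℕ, n0 ≤ n →
      ∀ a : (Fin (h + 1) → Fin (d + 1)) → ℤ, a ≠ 0 → (∀ e, |(a e : ℝ)| ≤ C ^ n) →
      (B ^ n)⁻¹ < |∑ e, (a e : ℝ) *
        ∏ i : Fin (h + 1), dser φ (n + i) ^ ((e i : Fin (d + 1)) : ℕ)| := by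
  classical
  set g : (Fin (h + 1) → Fin (d + 1)) → ArithmeticFunction ℚ :=
    fun e => mono φ fun i => ((e i : Fin (d + 1)) : ℕ) with hg
  have hrep : ∀ e, Rep (g e) (fun n => ∏ i : Fin (h + 1), dser φ (n + i) ^ ((e i : Fin (d + 1)) : ℕ))
      (fun p => ∑ i : Fin (h + 1), (((e i : Fin (d + 1)) : ℕ) : ℚ) * (φ p / (p : ℚ) ^ (i : ℕ))) :=
    fun e => mono_rep h1 h2 _
  have hval : ∀ e (p : ℕ), p.Prime →
      g e p = v * ∑ i : Fin (h + 1), (((e i : Fin (d + 1)) : ℕ) : ℚ) / (p : ℚ) ^ (i : ℕ) := by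
    intro e p hpp
    rw [(hrep e).prime p hpp, Finset.mul_sum]
    refine Finset.sum_congr rfl fun i _ => ?_
    rw [hp p hpp]
    ring
  choose n1 hn1 using fun e => (hrep e).ser
  set n2 : ℕ := ∑ e, n1 e with hn2
  have hn2' : ∀ e, n1 e ≤ n2 := fun e =>
    Finset.single_le_sum (f := n1) (fun _ _ => Nat.zero_le _) (Finset.mem_univ e)
  have hsep : ∀ e e' : Fin (h + 1) → Fin (d + 1), e ≠ e' → ∀ Y : ℕ,
      ∃ p : ℕ, p.Prime ∧ Y ≤ p ∧ g e p ≠ g e' p := by
    intro e e' hne Y
    obtain ⟨p, hpp, hY, hs⟩ := exists_prime_ne (fun i => (((e i : Fin (d + 1)) : ℕ) : ℚ) -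
      (((e' i : Fin (d + 1)) : ℕ) : ℚ)) (by
        intro h0
        apply hne
        funext i
        have h3 := congrFun h0 i
        simp only [Pi.zero_apply, sub_eq_zero, Nat.cast_inj] at h3
        exact Fin.ext h3) Y
    refine ⟨p, hpp, hY, fun heq => hs ?_⟩
    rw [hval e p hpp, hval e' p hpp] at heq
    have h3 := mul_left_cancel₀ hv heq
    simp only [sub_div, Finset.sum_sub_distrib]
    rw [h3, sub_self]
  obtain ⟨B, hB, n0, hmain⟩ := main g (fun e => (hrep e).pb)
    (dir_ind g (fun e => (hrep e).mul) hsep) C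
  refine ⟨B, hB, n0 + n2, fun n hn a ha haC => ?_⟩
  have h3 := hmain n (by omega) a ha haC
  have h4 : ∀ e, dser (g e) n =
      ∏ i : Fin (h + 1), dser φ (n + i) ^ ((e i : Fin (d + 1)) : ℕ) := fun e =>
    hn1 e n (by have := hn2' e; omega)
  simp only [h4] at h3
  exact h3

/-- exponent vectors -/
noncomputable def ex {h d : ℕ} (e : Fin (h + 1) → Fin (d + 1)) : Fin (h + 1) →₀ ℕ :=
  Finsupp.equivFunOnFinite.symm fun i => ((e i : Fin (d + 1)) : ℕ)

lemma ex_apply {h d : ℕ} (e : Fin (h + 1) → Fin (d + 1)) (i : Fin (h + 1)) :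
    ex e i = ((e i : Fin (d + 1)) : ℕ) := rfl

lemma ex_inj {h d : ℕ} : Function.Injective (ex (h := h) (d := d)) := by
  intro e e' hee
  funext i
  have h1 := DFunLike.congr_fun hee i
  rw [ex_apply, ex_apply] at h1
  exact Fin.ext h1

lemma ex_surj {h d : ℕ} {P : MvPolynomial (Fin (h + 1)) ℤ} (hP : P.totalDegree ≤ d)
    {m : Fin (h + 1) →₀ ℕ} (hm : m ∈ P.support) : ∃ e : Fin (h + 1) → Fin (d + 1), ex e = m := by
  have h1 := MvPolynomial.le_totalDegree hm
  have h2 : ∀ i, m i < d + 1 := by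
    intro i
    have h3 : m i ≤ m.sum fun _ e => e := by
      rw [Finsupp.sum_fintype _ _ (fun _ => rfl)]
      exact single_le_sum (f := fun i => m i) (fun _ _ => Nat.zero_le _) (mem_univ i)
    omega
  refine ⟨fun i => ⟨m i, h2 i⟩, ?_⟩
  ext i
  rw [ex_apply]

/-- **polynomials in consecutive values** -/
theorem poly_main' (φ : ArithmeticFunction ℚ) (h1 : φ.IsMultiplicative) (h2 : PB φ) (v : ℚ)
    (hv : v ≠ 0) (hp : ∀ p : ℕ, p.Prime → φ p = v) (h d : ℕ) (C : ℝ) :
    ∃ B : ℝ, 1 < B ∧ ∃ n0 : ℕ, ∀ n : ℕ, n0 ≤ n →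
      ∀ P : MvPolynomial (Fin (h + 1)) ℤ, P ≠ 0 → P.totalDegree ≤ d →
      (∀ e, |((P.coeff e : ℤ) : ℝ)| ≤ C ^ n) →
      (B ^ n)⁻¹ < |MvPolynomial.aeval (fun i : Fin (h + 1) => dser φ (n + i)) P| := by
  classical
  obtain ⟨B, hB, n0, hmain⟩ := mono_main φ h1 h2 v hv hp h d C
  refine ⟨B, hB, n0, fun n hn P hP hPd hPC => ?_⟩
  have h3 := hmain n hn (fun e => P.coeff (ex e)) (by
    intro h0
    apply hP
    ext m
    rw [MvPolynomial.coeff_zero]
    by_contra hm
    obtain ⟨e, he⟩ := ex_surj hPd (MvPolynomial.mem_support_iff.2 hm)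
    apply hm
    rw [← he]
    exact congrFun h0 e) (fun e => hPC _)
  have h4 : MvPolynomial.aeval (fun i : Fin (h + 1) => dser φ (n + i)) P =
      ∑ e : Fin (h + 1) → Fin (d + 1), ((P.coeff (ex e) : ℤ) : ℝ) *
        ∏ i : Fin (h + 1), dser φ (n + i) ^ ((e i : Fin (d + 1)) : ℕ) := by
    rw [MvPolynomial.aeval_def, MvPolynomial.eval₂_eq']
    have h5 : ∑ e : Fin (h + 1) → Fin (d + 1), ((P.coeff (ex e) : ℤ) : ℝ) *
        ∏ i : Fin (h + 1), dser φ (n + i) ^ ((e i : Fin (d + 1)) : ℕ) =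
        ∑ m ∈ (univ : Finset (Fin (h + 1) → Fin (d + 1))).image ex, ((P.coeff m : ℤ) : ℝ) *
          ∏ i : Fin (h + 1), dser φ (n + i) ^ (m i) := by
      rw [sum_image (fun _ _ _ _ hee => ex_inj hee)]
      rfl
    rw [h5]
    refine sum_subset ?_ ?_
    · intro m hm
      obtain ⟨e, he⟩ := ex_surj hPd hm
      exact mem_image.2 ⟨e, mem_univ _, he⟩
    · intro m _ hm
      rw [MvPolynomial.notMem_support_iff.1 hm]
      simp
  rw [h4]
  exact h3

end Pool.Agent.TH883.Zg
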