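import Pool.Agent.TH883.Zg.Alg
import Pool.Agent.TH883.Zg.Sign

/-!
# Polynomials in multiple zeta values with one large argument (helper883)
-/

set_option autoImplicit false

namespace Pool.Agent.TH883.Zg

open Finset Filter Topology Pool.Agent.TH507.ZS Pool.Agent.TH507.HS

/-- **Polynomials in multiple zeta values with one large argument.** -/
theorem mzv_alg (Λ : Finset (List ℕ+)) (h d : ℕ) (C : ℝ) :
    ∃ B : ℝ, 1 < B ∧ ∃ n0 : ℕ, ∀ n : ℕ, n0 ≤ n →
      ∀ P : MvPolynomial (Fin (h + 1) × Λ) ℤ, P ≠ 0 → P.totalDegree ≤ d →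
      (∀ e, |((P.coeff e : ℤ) : ℝ)| ≤ C ^ n) →
      (B ^ n)⁻¹ < |MvPolynomial.aeval
        (fun j : Fin (h + 1) × Λ => dser (hs j.2.1) (n + j.1)) P| := by
  set g : Fin (h + 1) × Λ → ArithmeticFunction ℚ :=
    fun j => af (fun k => hs j.2.1 k / (k : ℚ) ^ (j.1 : ℕ)) with hg
  have hga : ∀ j k, 1 ≤ k → g j k = hs j.2.1 k / (k : ℚ) ^ (j.1 : ℕ) := fun j k hk =>
    af_apply _ hk
  have hgb : ∀ j, PB (g j) := by
    intro x
    refine ⟨x.2.1.length + 1, fun k hk => ?_⟩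
    have h1 : (1 : ℝ) ≤ k := by exact_mod_cast hk
    rw [hga x k hk]
    push_cast
    rw [abs_div, abs_of_pos (by positivity : (0 : ℝ) < (k : ℝ) ^ (x.1 : ℕ))]
    refine (div_le_self (abs_nonneg _) (one_le_pow₀ h1)).trans ((hs_bound _ k hk).trans ?_)
    have h3 : (1 : ℝ) ≤ (x.2.1.length : ℝ) + 1 := by
      have : (0 : ℝ) ≤ (x.2.1.length : ℝ) := Nat.cast_nonneg _
      linarith only [this]
    calc (k : ℝ) ^ x.2.1.length ≤ (k : ℝ) ^ (x.2.1.length + 1) :=
          pow_le_pow_right₀ h1 (by omega)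
      _ ≤ ((x.2.1.length : ℝ) + 1) * (k : ℝ) ^ (x.2.1.length + 1) :=
          le_mul_of_one_le_left (by positivity) h3
  obtain ⟨B, hB, n0, hmain⟩ := alg_main g hgb (fun Y c hc => hs_prime Λ h Y c
    (fun q hq hqY => by
      rw [← hc q hq hqY]
      exact sum_congr rfl fun j _ => by rw [hga j q hq.one_lt.le])) d C
  refine ⟨B, hB, n0, fun n hn P hP hPd hPC => ?_⟩
  have h1 := hmain n hn P hP hPd hPC
  have h2 : (fun j : Fin (h + 1) × Λ => dser (g j) n) =
      fun j : Fin (h + 1) × Λ => dser (hs j.2.1) (n + j.1) := by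
    funext j
    rw [dser, dser]
    refine tsum_congr fun k => ?_
    rw [hga j (k + 1) (by omega)]
    push_cast
    rw [pow_add, div_div, mul_comm (((k : ℝ) + 1) ^ (j.1 : ℕ))]
  rw [h2] at h1
  exact h1

end Pool.Agent.TH883.Zg
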