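import Pool.Agent.TH507.ZS.Poly

/-!
# Arithmetic functions with finite support, leading terms (helper883)
-/

set_option autoImplicit false

namespace Pool.Agent.TH883.Zg

open Filter Topology Pool.Agent.TH507.ZS

/-- finite support -/
def FS (p : ArithmeticFunction ℚ) : Prop := ∃ N : ℕ, ∀ k, N ≤ k → p k = 0

lemma FS.zero : FS 0 := ⟨0, fun _ _ => rfl⟩

lemma FS.add {p q : ArithmeticFunction ℚ} (hp : FS p) (hq : FS q) : FS (p + q) := by
  obtain ⟨N, hN⟩ := hp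
  obtain ⟨N', hN'⟩ := hq
  refine ⟨N + N', fun k hk => ?_⟩
  rw [ArithmeticFunction.add_apply, hN k (by omega), hN' k (by omega), add_zero]

lemma FS.neg {p : ArithmeticFunction ℚ} (hp : FS p) : FS (-p) := by
  obtain ⟨N, hN⟩ := hp
  refine ⟨N, fun k hk => ?_⟩
  show -(p k) = 0
  rw [hN k hk, neg_zero]

lemma FS.mul {p q : ArithmeticFunction ℚ} (hp : FS p) (hq : FS q) : FS (p * q) := by
  obtain ⟨N, hN⟩ := hp
  obtain ⟨N', hN'⟩ := hq
  refine ⟨N * N', fun k hk => ?_⟩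
  rw [ArithmeticFunction.mul_apply]
  refine Finset.sum_eq_zero fun x hx => ?_
  have h1 := (Nat.mem_divisorsAntidiagonal.1 hx).1
  by_cases h : N ≤ x.1
  · rw [hN _ h, zero_mul]
  · by_cases h' : N' ≤ x.2
    · rw [hN' _ h', mul_zero]
    · exfalso
      push Not at h h'
      have h2 : x.1 * x.2 < N * N' := Nat.mul_lt_mul'' h h'
      omega

lemma FS.sum {ι : Type} (s : Finset ι) (p : ι → ArithmeticFunction ℚ) (h : ∀ i ∈ s, FS (p i)) :
    FS (∑ i ∈ s, p i) := by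
  classical
  induction s using Finset.induction_on with
  | empty => simpa using FS.zero
  | insert a s ha ih =>
    rw [Finset.sum_insert ha]
    exact (h a (Finset.mem_insert_self _ _)).add (ih fun i hi => h i (Finset.mem_insert_of_mem hi))

lemma FS.pb {p : ArithmeticFunction ℚ} (h : FS p) : PB p := by
  obtain ⟨N, hN⟩ := h
  obtain ⟨A, hA⟩ := exists_nat_ge (∑ k ∈ Finset.range N, |(p k : ℝ)|)
  refine ⟨A, fun k hk => ?_⟩
  have hk1 : (1 : ℝ) ≤ (k : ℝ) ^ A := one_le_pow₀ (by exact_mod_cast hk)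
  have hA0 : (0 : ℝ) ≤ A := Nat.cast_nonneg _
  by_cases h1 : N ≤ k
  · rw [hN k h1, Rat.cast_zero, abs_zero]
    positivity
  · have h2 : |(p k : ℝ)| ≤ ∑ k ∈ Finset.range N, |(p k : ℝ)| :=
      Finset.single_le_sum (f := fun k => |(p k : ℝ)|) (fun _ _ => abs_nonneg _)
        (Finset.mem_range.2 (by omega))
    calc |(p k : ℝ)| ≤ A := h2.trans hA
      _ ≤ A * (k : ℝ) ^ A := le_mul_of_one_le_right hA0 hk1

lemma pb_sub {f g : ArithmeticFunction ℚ} (hf : PB f) (hg : PB g) : PB (f - g : ArithmeticFunction ℚ) := by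
  obtain ⟨A, hA⟩ := hf
  obtain ⟨B, hB⟩ := hg
  refine ⟨A + B, fun k hk => ?_⟩
  have h1 : (f - g) k = f k - g k := by
    rw [sub_eq_add_neg, ArithmeticFunction.add_apply]
    show f k + -(g k) = _
    ring
  have hk1 : (1 : ℝ) ≤ (k : ℝ) := by exact_mod_cast hk
  rw [h1]
  push_cast
  have h2 := hA k hk
  have h3 := hB k hk
  have h4 : (k : ℝ) ^ A ≤ (k : ℝ) ^ (A + B) := pow_le_pow_right₀ hk1 (by omega)
  have h5 : (k : ℝ) ^ B ≤ (k : ℝ) ^ (A + B) := pow_le_pow_right₀ hk1 (by omega)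
  calc |(f k : ℝ) - (g k : ℝ)| ≤ |(f k : ℝ)| + |(g k : ℝ)| := abs_sub _ _
    _ ≤ A * (k : ℝ) ^ A + B * (k : ℝ) ^ B := add_le_add h2 h3
    _ ≤ A * (k : ℝ) ^ (A + B) + B * (k : ℝ) ^ (A + B) := by gcongr
    _ = _ := by ring

lemma dser_sub {f g : ArithmeticFunction ℚ} (hf : PB f) (hg : PB g) :
    ∃ n1 : ℕ, ∀ n, n1 ≤ n → dser (f - g : ArithmeticFunction ℚ) n = dser f n - dser g n := by
  obtain ⟨A, hA⟩ := hf
  obtain ⟨B, hB⟩ := hg
  refine ⟨A + B + 2, fun n hn => ?_⟩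
  have h1 := dser_summable hA (show A + 2 ≤ n by omega)
  have h2 := dser_summable hB (show B + 2 ≤ n by omega)
  rw [dser, dser, dser, ← h1.tsum_sub h2]
  refine tsum_congr fun k => ?_
  have h3 : (f - g) (k + 1) = f (k + 1) - g (k + 1) := by
    rw [sub_eq_add_neg, ArithmeticFunction.add_apply]
    show f (k + 1) + -(g (k + 1)) = _
    ring
  rw [h3]
  push_cast
  ring

lemma dser_bdd {f : ArithmeticFunction ℚ} (hf : PB f) :
    ∃ K : ℝ, 0 ≤ K ∧ ∃ n1 : ℕ, ∀ n, n1 ≤ n → |dser f n| ≤ K := by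
  obtain ⟨A, hA⟩ := hf
  refine ⟨A * Z2, mul_nonneg (Nat.cast_nonneg _) Z2_nonneg, A + 2, fun n hn => ?_⟩
  have h1 := tail hA (le_refl 1) hn
  simpa using h1

/-- the least index -/
lemma exists_min {f : ArithmeticFunction ℚ} (hf : f ≠ 0) :
    ∃ m : ℕ, 1 ≤ m ∧ f m ≠ 0 ∧ ∀ k < m, f k = 0 := by
  classical
  have h1 : ∃ m, f m ≠ 0 := by
    by_contra h
    push Not at h
    exact hf (ArithmeticFunction.ext h)
  refine ⟨Nat.find h1, ?_, Nat.find_spec h1, fun k hk => ?_⟩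
  · rw [Nat.one_le_iff_ne_zero]
    intro h2
    apply Nat.find_spec h1
    rw [h2]
    exact ArithmeticFunction.map_zero
  · by_contra h2
    exact Nat.find_min h1 hk h2

lemma mul_ne {f g : ArithmeticFunction ℚ} (hf : f ≠ 0) (hg : g ≠ 0) : f * g ≠ 0 := by
  obtain ⟨a, ha1, ha, hamin⟩ := exists_min hf
  obtain ⟨b, hb1, hb, hbmin⟩ := exists_min hg
  intro h
  have h1 : (f * g) (a * b) = 0 := by rw [h]; rfl
  rw [ArithmeticFunction.mul_apply, Finset.sum_eq_single (a, b)] at h1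
  · exact (mul_ne_zero ha hb) h1
  · intro x hx hne
    have h2 := (Nat.mem_divisorsAntidiagonal.1 hx).1
    rcases lt_trichotomy x.1 a with hlt | heq | hgt
    · rw [hamin _ hlt, zero_mul]
    · exfalso
      apply hne
      rw [heq] at h2
      exact Prod.ext heq (Nat.eq_of_mul_eq_mul_left (by omega) h2)
    · have h3 : x.2 < b := by
        by_contra h4
        push Not at h4
        have h5 : a * b < x.1 * x.2 := by
          calc a * b < x.1 * b := Nat.mul_lt_mul_of_pos_right hgt (by omega)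
            _ ≤ x.1 * x.2 := Nat.mul_le_mul_left _ h4
        omega
      rw [hbmin _ h3, mul_zero]
  · intro h2
    exfalso
    apply h2
    rw [Nat.mem_divisorsAntidiagonal]
    exact ⟨rfl, Nat.mul_ne_zero (by omega) (by omega)⟩

lemma ev_pow {a b : ℝ} (ha : 0 ≤ a) (hab : a < b) (K : ℝ) :
    ∀ᶠ n : ℕ in Filter.atTop, K * a ^ n ≤ b ^ n := by
  have hb : 0 < b := lt_of_le_of_lt ha hab
  have h1 : Filter.Tendsto (fun n : ℕ => K * (a / b) ^ n) Filter.atTop (nhds (K * 0)) :=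
    (tendsto_pow_atTop_nhds_zero_of_lt_one (div_nonneg ha hb.le)
      ((div_lt_one hb).2 hab)).const_mul K
  rw [mul_zero] at h1
  filter_upwards [h1.eventually (gt_mem_nhds zero_lt_one)] with n hn
  have h2 : 0 < b ^ n := pow_pos hb n
  rw [div_pow] at hn
  have h3 : K * a ^ n = (K * (a ^ n / b ^ n)) * b ^ n := by
    field_simp
  rw [h3]
  exact mul_le_of_le_one_left h2.le hn.le

/-- a nonzero Dirichlet series does not vanish at large integers -/
lemma dser_ne {f : ArithmeticFunction ℚ} (hf : PB f) (h0 : f ≠ 0) :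
    ∃ n1 : ℕ, ∀ n, n1 ≤ n → dser f n ≠ 0 := by
  obtain ⟨m, hm1, hm, hmin⟩ := exists_min h0
  obtain ⟨A, hA⟩ := hf
  set K : ℝ := A * ((m + 1 : ℕ) : ℝ) ^ (A + 2) * Z2 with hK
  have hmR : (0 : ℝ) < m := by exact_mod_cast hm1
  have hfm : 0 < |(f m : ℝ)| := by
    rw [abs_pos]
    exact_mod_cast hm
  obtain ⟨n1, hn1⟩ := eventually_atTop.1 (ev_pow (a := (m : ℝ)) (b := ((m + 1 : ℕ) : ℝ)) hmR.le
    (by push_cast; linarith) (2 * K / |(f m : ℝ)|))
  refine ⟨n1 + A + 2, fun n hn h => ?_⟩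
  have h1 := tail hA (show 1 ≤ m + 1 by omega) (show A + 2 ≤ n by omega)
  have h2 : ∑ k ∈ Finset.Ico 1 (m + 1), (f k : ℝ) / (k : ℝ) ^ n = (f m : ℝ) / (m : ℝ) ^ n := by
    rw [Finset.sum_eq_single m]
    · intro k hk hne
      rw [Finset.mem_Ico] at hk
      rw [hmin k (by omega)]
      simp
    · intro h3
      exact absurd (Finset.mem_Ico.2 ⟨hm1, by omega⟩) h3
  rw [h2, h, zero_sub, abs_neg, abs_div, abs_of_pos (pow_pos hmR n)] at h1
  have h3 := hn1 n (by omega)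
  have hmn : (0 : ℝ) < (m : ℝ) ^ n := pow_pos hmR n
  have hmn1 : (0 : ℝ) < ((m + 1 : ℕ) : ℝ) ^ n := by positivity
  have h4 : |(f m : ℝ)| * ((m + 1 : ℕ) : ℝ) ^ n ≤ K * (m : ℝ) ^ n := by
    rw [div_le_iff₀ hmn] at h1
    calc |(f m : ℝ)| * ((m + 1 : ℕ) : ℝ) ^ n ≤
        (A * (((m + 1 : ℕ) : ℝ) ^ (A + 2) / ((m + 1 : ℕ) : ℝ) ^ n) * Z2 * (m : ℝ) ^ n) *
          ((m + 1 : ℕ) : ℝ) ^ n := mul_le_mul_of_nonneg_right h1 hmn1.le
      _ = K * (m : ℝ) ^ n := by
        rw [hK]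
        field_simp
  have h5 : 2 * (K * (m : ℝ) ^ n) ≤ |(f m : ℝ)| * ((m + 1 : ℕ) : ℝ) ^ n := by
    calc 2 * (K * (m : ℝ) ^ n) = |(f m : ℝ)| * (2 * K / |(f m : ℝ)| * (m : ℝ) ^ n) := by
          field_simp
      _ ≤ _ := mul_le_mul_of_nonneg_left h3 hfm.le
  have h6 : 0 < |(f m : ℝ)| * ((m + 1 : ℕ) : ℝ) ^ n := mul_pos hfm hmn1
  linarith only [h4, h5, h6]

lemma sum_ne {J : Type} [Fintype J] [DecidableEq J] {α : Type} [AddCommMonoid α] (j1 : J)
    (f : J → α) : ∑ j, f j = f j1 + ∑ j : {j // j ≠ j1}, f j := by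
  rw [← Finset.add_sum_erase Finset.univ f (Finset.mem_univ j1)]
  congr 1
  exact Finset.sum_subtype (Finset.univ.erase j1) (fun x => by simp) f

lemma card_ne {J : Type} [Fintype J] [DecidableEq J] (j1 : J) {k : ℕ}
    (h : Fintype.card J = k + 1) : Fintype.card {j // j ≠ j1} = k := by
  have h1 := Fintype.card_subtype_compl (fun j => j = j1)
  rw [Fintype.card_subtype_eq, h] at h1
  have h2 : Fintype.card {j // j ≠ j1} = Fintype.card {j // ¬ (j = j1)} := rfl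
  rw [h2, h1]
  rfl

/-- the Dirichlet polynomial of an integer function on the divisors of `D` -/
noncomputable def dpol (D : ℕ) (y : ℕ → ℤ) : ArithmeticFunction ℚ :=
  ⟨fun d => if d ∈ D.divisors then ((y (D / d) : ℤ) : ℚ) else 0, by simp⟩

lemma dpol_apply (D : ℕ) (y : ℕ → ℤ) (d : ℕ) :
    dpol D y d = if d ∈ D.divisors then ((y (D / d) : ℤ) : ℚ) else 0 := rfl

lemma dpol_fs (D : ℕ) (hD : D ≠ 0) (y : ℕ → ℤ) : FS (dpol D y) := by
  refine ⟨D + 1, fun k hk => ?_⟩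
  rw [dpol_apply, if_neg]
  intro h
  have := Nat.divisor_le h
  omega

lemma dpol_ne {D : ℕ} {y : ℕ → ℤ} {κ : ℕ} (h : κ ∈ D.divisors) (hy : y κ ≠ 0) :
    dpol D y ≠ 0 := by
  intro h0
  have hd := Nat.mem_divisors.1 h
  have h1 : dpol D y (D / κ) = 0 := by rw [h0]; rfl
  rw [dpol_apply, if_pos (Nat.mem_divisors.2 ⟨Nat.div_dvd_of_dvd hd.1, hd.2⟩),
    Nat.div_div_self hd.1 hd.2] at h1
  exact hy (by exact_mod_cast h1)

lemma dpol_dser {D : ℕ} (hD : D ≠ 0) (y : ℕ → ℤ) (n : ℕ) :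
    dser (dpol D y) n * (D : ℝ) ^ n = ((∑ κ ∈ D.divisors, y κ * (κ : ℤ) ^ n : ℤ) : ℝ) := by
  have h1 : dser (dpol D y) n = ∑ d ∈ D.divisors, ((y (D / d) : ℤ) : ℝ) / (d : ℝ) ^ n := by
    rw [dser, tsum_eq_sum (s := Finset.range D)]
    · have h2 : ∑ k ∈ Finset.range D, ((dpol D y (k + 1) : ℚ) : ℝ) / ((k + 1 : ℕ) : ℝ) ^ n =
          ∑ d ∈ Finset.Ico 1 (D + 1), ((dpol D y d : ℚ) : ℝ) / (d : ℝ) ^ n := by
        rw [Finset.sum_Ico_eq_sum_range]
        refine Finset.sum_congr rfl fun k _ => ?_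
        rw [add_comm k 1]
      rw [h2, Nat.divisors, Finset.sum_filter]
      refine Finset.sum_congr rfl fun d hd => ?_
      rw [dpol_apply]
      by_cases h3 : d ∣ D
      · rw [if_pos (Nat.mem_divisors.2 ⟨h3, hD⟩), if_pos h3]
        push_cast
        rfl
      · rw [if_neg (fun h => h3 (Nat.mem_divisors.1 h).1), if_neg h3]
        simp
    · intro k hk
      rw [Finset.mem_range] at hk
      have h3 : dpol D y (k + 1) = 0 := by
        rw [dpol_apply, if_neg]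
        intro h
        have := Nat.divisor_le h
        omega
      rw [h3]
      simp
  rw [h1, Finset.sum_mul]
  push_cast
  rw [← Nat.sum_div_divisors D (fun κ => ((y κ : ℤ) : ℝ) * (κ : ℝ) ^ n)]
  refine Finset.sum_congr rfl fun d hd => ?_
  have hd' := Nat.mem_divisors.1 hd
  have hd0 : (d : ℝ) ≠ 0 := by
    exact_mod_cast (Nat.pos_of_mem_divisors hd).ne'
  rw [Nat.cast_div hd'.1 hd0, div_pow]
  field_simp

end Pool.Agent.TH883.Zg
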