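import Pool.Agent.TH883.Zg.Der
import Pool.Agent.TH883.Zg.Cop

/-!
# Polynomials in Dirichlet series that are independent at the primes (helper883)
-/

set_option autoImplicit false

namespace Pool.Agent.TH883.Zg

open Finset Filter Topology Pool.Agent.TH507.ZS

/-- `f` is polynomially bounded and its series is `F` at large integers -/
def RB (f : ArithmeticFunction ℚ) (F : ℕ → ℝ) : Prop :=
  PB f ∧ ∃ n1 : ℕ, ∀ n, n1 ≤ n → dser f n = F n

lemma RB.one : RB 1 (fun _ => 1) := ⟨Rep.one.pb, 0, fun n _ => dser_one n⟩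

lemma RB.mul {f g : ArithmeticFunction ℚ} {F G : ℕ → ℝ} (hf : RB f F) (hg : RB g G) :
    RB (f * g) (fun n => F n * G n) := by
  obtain ⟨hf1, a, ha⟩ := hf
  obtain ⟨hg1, b, hb⟩ := hg
  obtain ⟨c, hc⟩ := dser_mul hf1 hg1
  exact ⟨hf1.mul hg1, a + b + c, fun n hn => by
    rw [hc n (by omega), ha n (by omega), hb n (by omega)]⟩

lemma RB.pow {f : ArithmeticFunction ℚ} {F : ℕ → ℝ} (hf : RB f F) (e : ℕ) :
    RB (f ^ e) (fun n => F n ^ e) := by
  induction e with
  | zero =>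
    simp only [pow_zero]
    exact RB.one
  | succ e ih =>
    simp only [pow_succ]
    exact ih.mul hf

lemma RB.prod {ι : Type} (s : Finset ι) (f : ι → ArithmeticFunction ℚ) (F : ι → ℕ → ℝ)
    (h : ∀ i ∈ s, RB (f i) (F i)) : RB (∏ i ∈ s, f i) (fun n => ∏ i ∈ s, F i n) := by
  classical
  induction s using Finset.induction_on with
  | empty => simpa using RB.one
  | insert a s ha ih =>
    have h1 := (h a (Finset.mem_insert_self _ _)).mul
      (ih fun i hi => h i (Finset.mem_insert_of_mem hi))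
    simpa only [Finset.prod_insert ha] using h1

section

variable {J : Type} [Fintype J]

/-- exponent vectors -/
noncomputable def exq {d : ℕ} (e : J → Fin (d + 1)) : J →₀ ℕ :=
  Finsupp.equivFunOnFinite.symm fun i => ((e i : Fin (d + 1)) : ℕ)

lemma exq_apply {d : ℕ} (e : J → Fin (d + 1)) (i : J) :
    exq e i = ((e i : Fin (d + 1)) : ℕ) := rfl

lemma exq_inj {d : ℕ} : Function.Injective (exq (J := J) (d := d)) := by
  intro e e' hee
  funext i
  have h1 := DFunLike.congr_fun hee i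
  rw [exq_apply, exq_apply] at h1
  exact Fin.ext h1

lemma exq_surj {d : ℕ} {P : MvPolynomial J ℤ} (hP : P.totalDegree ≤ d)
    {m : J →₀ ℕ} (hm : m ∈ P.support) : ∃ e : J → Fin (d + 1), exq e = m := by
  have h1 := MvPolynomial.le_totalDegree hm
  have h2 : ∀ i, m i < d + 1 := by
    intro i
    have h3 : m i ≤ m.sum fun _ e => e := by
      rw [Finsupp.sum_fintype _ _ (fun _ => rfl)]
      exact single_le_sum (f := fun i => m i) (fun _ _ => Nat.zero_le _) (mem_univ i)
    omega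
  refine ⟨fun i => ⟨m i, h2 i⟩, ?_⟩
  ext i
  rw [exq_apply]

/-- **monomials** -/
theorem alg_mono [DecidableEq J] (g : J → ArithmeticFunction ℚ) (hg : ∀ j, PB (g j))
    (hpr : ∀ Y : ℕ, ∀ c : J → ℚ, (∀ q : ℕ, q.Prime → Y ≤ q → ∑ j, c j * g j q = 0) → c = 0)
    (d : ℕ) (C : ℝ) :
    ∃ B : ℝ, 1 < B ∧ ∃ n0 : ℕ, ∀ n : ℕ, n0 ≤ n →
      ∀ a : (J → Fin (d + 1)) → ℤ, a ≠ 0 → (∀ e, |(a e : ℝ)| ≤ C ^ n) →
      (B ^ n)⁻¹ < |∑ e, (a e : ℝ) * ∏ j, dser (g j) n ^ ((e j : Fin (d + 1)) : ℕ)| := by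
  classical
  set G : (J → Fin (d + 1)) → ArithmeticFunction ℚ :=
    fun e => ∏ j, g j ^ ((e j : Fin (d + 1)) : ℕ) with hG
  have hrep : ∀ e, RB (G e) (fun n => ∏ j, dser (g j) n ^ ((e j : Fin (d + 1)) : ℕ)) := fun e =>
    RB.prod univ (fun j => g j ^ ((e j : Fin (d + 1)) : ℕ)) _ fun j _ =>
      RB.pow ⟨hg j, 0, fun n _ => rfl⟩ _
  have hind : ∀ N : ℕ, 1 ≤ N → ∀ c : (J → Fin (d + 1)) → ℚ,
      (∀ k, 1 ≤ k → k.Coprime N → ∑ e, c e * G e k = 0) → c = 0 := by
    intro N hN c hc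
    set P : MvPolynomial J ℚ := ∑ e, MvPolynomial.monomial (exq e) (c e) with hP
    have h1 : MvPolynomial.aeval g P = ∑ e, c e • G e := by
      rw [hP, map_sum]
      refine sum_congr rfl fun e _ => ?_
      rw [MvPolynomial.aeval_monomial, Finsupp.prod_fintype _ _ (fun _ => pow_zero _),
        Algebra.smul_def]
      rfl
    have h2 : ∀ (s : Finset (J → Fin (d + 1))) (k : ℕ),
        (∑ e ∈ s, c e • G e) k = ∑ e ∈ s, c e * G e k := by
      intro s k
      induction s using Finset.induction_on with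
      | empty => rfl
      | insert a s ha ih =>
        rw [sum_insert ha, sum_insert ha, ArithmeticFunction.add_apply, ih]
        rfl
    have h3 := alg_ind g hpr N hN P.totalDegree P le_rfl (fun k hk hkN => by
      rw [h1, h2]
      exact hc k hk hkN)
    funext e
    have h4 : MvPolynomial.coeff (exq e) P = c e := by
      rw [hP, MvPolynomial.coeff_sum, sum_eq_single e]
      · rw [MvPolynomial.coeff_monomial, if_pos rfl]
      · intro e' _ hne
        rw [MvPolynomial.coeff_monomial, if_neg (fun h => hne (exq_inj h))]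
      · intro h
        exact absurd (mem_univ _) h
    rw [← h4, h3, MvPolynomial.coeff_zero]
    rfl
  obtain ⟨B, hB, n0, hmain⟩ := main' G (fun e => (hrep e).1) hind C
  choose n1 hn1 using fun e => (hrep e).2
  set n2 : ℕ := ∑ e, n1 e with hn2
  have hn2' : ∀ e, n1 e ≤ n2 := fun e =>
    Finset.single_le_sum (f := n1) (fun _ _ => Nat.zero_le _) (Finset.mem_univ e)
  refine ⟨B, hB, n0 + n2, fun n hn a ha haC => ?_⟩
  have h3 := hmain n (by omega) a ha haC
  have h4 : ∀ e, dser (G e) n = ∏ j, dser (g j) n ^ ((e j : Fin (d + 1)) : ℕ) := fun e =>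
    hn1 e n (by have := hn2' e; omega)
  simp only [h4] at h3
  exact h3

/-- **polynomials in Dirichlet series that are linearly independent at the primes** -/
theorem alg_main (g : J → ArithmeticFunction ℚ) (hg : ∀ j, PB (g j))
    (hpr : ∀ Y : ℕ, ∀ c : J → ℚ, (∀ q : ℕ, q.Prime → Y ≤ q → ∑ j, c j * g j q = 0) → c = 0)
    (d : ℕ) (C : ℝ) :
    ∃ B : ℝ, 1 < B ∧ ∃ n0 : ℕ, ∀ n : ℕ, n0 ≤ n →
      ∀ P : MvPolynomial J ℤ, P ≠ 0 → P.totalDegree ≤ d →
      (∀ e, |((P.coeff e : ℤ) : ℝ)| ≤ C ^ n) →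
      (B ^ n)⁻¹ < |MvPolynomial.aeval (fun j : J => dser (g j) n) P| := by
  classical
  obtain ⟨B, hB, n0, hmain⟩ := alg_mono g hg hpr d C
  refine ⟨B, hB, n0, fun n hn P hP hPd hPC => ?_⟩
  have h3 := hmain n hn (fun e => P.coeff (exq e)) (by
    intro h0
    apply hP
    ext m
    rw [MvPolynomial.coeff_zero]
    by_contra hm
    obtain ⟨e, he⟩ := exq_surj hPd (MvPolynomial.mem_support_iff.2 hm)
    apply hm
    rw [← he]
    exact congrFun h0 e) (fun e => hPC _)
  have h4 : MvPolynomial.aeval (fun j : J => dser (g j) n) P =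
      ∑ e : J → Fin (d + 1), ((P.coeff (exq e) : ℤ) : ℝ) *
        ∏ j, dser (g j) n ^ ((e j : Fin (d + 1)) : ℕ) := by
    rw [MvPolynomial.aeval_def, MvPolynomial.eval₂_eq']
    have h5 : ∑ e : J → Fin (d + 1), ((P.coeff (exq e) : ℤ) : ℝ) *
        ∏ j, dser (g j) n ^ ((e j : Fin (d + 1)) : ℕ) =
        ∑ m ∈ (univ : Finset (J → Fin (d + 1))).image exq, ((P.coeff m : ℤ) : ℝ) *
          ∏ j, dser (g j) n ^ (m j) := by
      rw [sum_image (fun _ _ _ _ hee => exq_inj hee)]
      rfl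
    rw [h5]
    refine sum_subset ?_ ?_
    · intro m hm
      obtain ⟨e, he⟩ := exq_surj hPd hm
      exact mem_image.2 ⟨e, mem_univ _, he⟩
    · intro m _ hm
      rw [MvPolynomial.notMem_support_iff.1 hm]
      simp
  rw [h4]
  exact h3

end

end Pool.Agent.TH883.Zg
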