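import Pool.Agent.TH883.Zg.Sub

/-!
# The box of divisors of `Q ^ (R + 1)` (helper883)
-/

set_option autoImplicit false

namespace Pool.Agent.TH883.Zg

open Finset

lemma card_ratio (Q : ℕ) (hQ : Q ≠ 0) :
    ∃ R : ℕ, 1 ≤ R ∧ (Q ^ (R + 1)).divisors.card ≤ 2 * (Q ^ R).divisors.card := by
  have hl2 : 0 < Real.log 2 := Real.log_pos (by norm_num)
  obtain ⟨R0, hR0⟩ := exists_nat_ge ((Q.primeFactors.card : ℝ) / Real.log 2)
  refine ⟨R0 + 1, by omega, ?_⟩
  set R := R0 + 1 with hR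
  have hR1 : 1 ≤ R := by omega
  have hcard : ∀ r : ℕ, 1 ≤ r → (Q ^ r).divisors.card =
      ∏ p ∈ Q.primeFactors, (r * Q.factorization p + 1) := by
    intro r hr
    rw [Nat.card_divisors (pow_ne_zero _ hQ), Nat.primeFactors_pow _ (by omega)]
    refine prod_congr rfl fun p _ => ?_
    rw [Nat.factorization_pow]
    simp
  rw [hcard (R + 1) (by omega), hcard R hR1]
  have hRp : (0 : ℝ) < R := by exact_mod_cast hR1
  have hω : (1 + 1 / (R : ℝ)) ^ Q.primeFactors.card ≤ 2 := by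
    have h1 : 1 + 1 / (R : ℝ) ≤ Real.exp (1 / (R : ℝ)) := by
      have := Real.add_one_le_exp (1 / (R : ℝ))
      linarith only [this]
    calc (1 + 1 / (R : ℝ)) ^ Q.primeFactors.card ≤
        (Real.exp (1 / (R : ℝ))) ^ Q.primeFactors.card :=
          pow_le_pow_left₀ (by positivity) h1 _
      _ = Real.exp ((Q.primeFactors.card : ℝ) * (1 / (R : ℝ))) := (Real.exp_nat_mul _ _).symm
      _ ≤ Real.exp (Real.log 2) := by
        rw [Real.exp_le_exp, mul_one_div, div_le_iff₀ hRp]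
        rw [div_le_iff₀ hl2] at hR0
        have h2 : (R0 : ℝ) ≤ R := by rw [hR]; push_cast; linarith
        calc (Q.primeFactors.card : ℝ) ≤ R0 * Real.log 2 := hR0
          _ ≤ R * Real.log 2 := mul_le_mul_of_nonneg_right h2 hl2.le
          _ = _ := mul_comm _ _
      _ = 2 := Real.exp_log (by norm_num)
  have hmain : ((∏ p ∈ Q.primeFactors, ((R + 1) * Q.factorization p + 1) : ℕ) : ℝ) ≤
      ((2 * ∏ p ∈ Q.primeFactors, (R * Q.factorization p + 1) : ℕ) : ℝ) := by
    push_cast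
    calc ∏ p ∈ Q.primeFactors, (((R : ℝ) + 1) * Q.factorization p + 1) ≤
        ∏ p ∈ Q.primeFactors, ((1 + 1 / (R : ℝ)) * ((R : ℝ) * Q.factorization p + 1)) := by
          refine prod_le_prod (fun p _ => by positivity) fun p _ => ?_
          have h3 : (1 + 1 / (R : ℝ)) * ((R : ℝ) * Q.factorization p + 1) =
              ((R : ℝ) + 1) * Q.factorization p + 1 + 1 / (R : ℝ) := by
            field_simp
            ring
          rw [h3]
          have : (0 : ℝ) ≤ 1 / (R : ℝ) := by positivity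
          linarith only [this]
      _ = (1 + 1 / (R : ℝ)) ^ Q.primeFactors.card *
          ∏ p ∈ Q.primeFactors, ((R : ℝ) * Q.factorization p + 1) := by
        rw [prod_mul_distrib, prod_const]
      _ ≤ 2 * ∏ p ∈ Q.primeFactors, ((R : ℝ) * Q.factorization p + 1) :=
        mul_le_mul_of_nonneg_right hω (prod_nonneg fun p _ => by positivity)
  exact_mod_cast hmain

/-- the index set -/
abbrev Ix (J : Type) (Q R : ℕ) : Type := J × {κ : ℕ // κ ∈ (Q ^ (R + 1)).divisors}

/-- the rows that are replaced -/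
def Sp {J : Type} (j0 : J) (m0 Q R : ℕ) (l : Ix J Q R) : Prop :=
  l.1 = j0 ∧ Q ∣ (l.2 : ℕ) * m0 ∧ (l.2 : ℕ) * m0 ∣ Q ^ (R + 1)

open Classical in
/-- the matrix of the forms -/
noncomputable def MM {J : Type} (j0 : J) (m0 Q R M : ℕ) (c : J → ℕ → ℤ) :
    Matrix (Ix J Q R) (Ix J Q R) ℤ := fun l l' =>
  if Sp j0 m0 Q R l then ∑ m ∈ Icc 1 M, (if (l'.2 : ℕ) * m = (l.2 : ℕ) * m0 then c l'.1 m else 0)
  else if l = l' then 1 else 0

section

variable {J : Type} [Fintype J] [DecidableEq J] (j0 : J) (m0 Q R M : ℕ) (c : J → ℕ → ℤ)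

lemma row_ord {l : Ix J Q R} (h : ¬ Sp j0 m0 Q R l) (x : Ix J Q R → ℤ) :
    ∑ l', MM j0 m0 Q R M c l l' * x l' = x l := by
  classical
  simp only [MM, if_neg h]
  rw [sum_eq_single l]
  · simp
  · intro l' _ hl'
    rw [if_neg (Ne.symm hl'), zero_mul]
  · intro h'
    exact absurd (mem_univ _) h'

lemma det_ne (h0 : 1 ≤ m0) (h0M : m0 ≤ M) (hmin : ∀ m < m0, ∀ j, c j m = 0)
    (hj0 : c j0 m0 ≠ 0) (hQ : Q ≠ 0) : (MM j0 m0 Q R M c).det ≠ 0 := by
  classical
  intro hdet
  obtain ⟨v, hv0, hv⟩ := Matrix.exists_mulVec_eq_zero_iff.2 hdet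
  have hrow : ∀ l, ∑ l', MM j0 m0 Q R M c l l' * v l' = 0 := by
    intro l
    exact congrFun hv l
  have hord : ∀ l, ¬ Sp j0 m0 Q R l → v l = 0 := by
    intro l hl
    rw [← row_ord j0 m0 Q R M c hl v]
    exact hrow l
  apply hv0
  have key : ∀ κ : ℕ, ∀ h : κ ∈ (Q ^ (R + 1)).divisors, v (j0, ⟨κ, h⟩) = 0 := by
    intro κ
    induction κ using Nat.strong_induction_on with
    | _ κ ih =>
      intro h
      by_cases hsp : Sp j0 m0 Q R (j0, ⟨κ, h⟩)
      · have h1 := hrow (j0, ⟨κ, h⟩)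
        rw [sum_eq_single (j0, ⟨κ, h⟩)] at h1
        · have h2 : MM j0 m0 Q R M c (j0, ⟨κ, h⟩) (j0, ⟨κ, h⟩) = c j0 m0 := by
            simp only [MM, if_pos hsp]
            have hκ : 0 < κ := Nat.pos_of_mem_divisors h
            rw [sum_eq_single m0]
            · rw [if_pos rfl]
            · intro m _ hm
              rw [if_neg]
              intro h3
              exact hm (Nat.eq_of_mul_eq_mul_left hκ h3)
            · intro h3
              exact absurd (mem_Icc.2 ⟨h0, h0M⟩) h3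
          rw [h2] at h1
          exact (mul_eq_zero.1 h1).resolve_left hj0
        · rintro ⟨j, κ', h'⟩ _ hne
          by_cases hj : j = j0
          · subst hj
            rcases lt_trichotomy κ' κ with hlt | heq | hgt
            · rw [ih κ' hlt h', mul_zero]
            · exfalso
              apply hne
              simp [heq]
            · have h3 : MM j m0 Q R M c (j, ⟨κ, h⟩) (j, ⟨κ', h'⟩) = 0 := by
                simp only [MM, if_pos hsp]
                refine sum_eq_zero fun m _ => ?_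
                split_ifs with h4
                · refine hmin m ?_ j
                  by_contra h5
                  have h6 : κ' * m0 ≤ κ' * m := Nat.mul_le_mul_left _ (by omega)
                  have h7 : κ * m0 < κ' * m0 := Nat.mul_lt_mul_of_pos_right hgt (by omega)
                  omega
                · rfl
              rw [h3, zero_mul]
          · rw [hord (j, ⟨κ', h'⟩) (fun h3 => hj h3.1), mul_zero]
        · intro h3
          exact absurd (mem_univ _) h3
      · exact hord _ hsp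
  funext l
  obtain ⟨j, κ, h⟩ := l
  by_cases hj : j = j0
  · subst hj
    exact key κ h
  · exact hord _ fun h3 => hj h3.1

/-- the value of the form -/
lemma row_sp {l : Ix J Q R} (h : Sp j0 m0 Q R l) (hQM : ∀ m ∈ Icc 1 M, m ∣ Q) (hQ : Q ≠ 0)
    (n : ℕ) (a : J → ℤ) :
    ((∑ l', MM j0 m0 Q R M c l l' * (a l'.1 * (l'.2 : ℕ) ^ n) : ℤ) : ℝ) =
      (((l.2 : ℕ) : ℝ) * m0) ^ n * ∑ j, (a j : ℝ) * ∑ m ∈ Icc 1 M, (c j m : ℝ) / (m : ℝ) ^ n := by
  classical
  have hinner : ∀ m ∈ Icc 1 M, ∑ κ : {κ : ℕ // κ ∈ (Q ^ (R + 1)).divisors},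
      (if (κ : ℕ) * m = (l.2 : ℕ) * m0 then (((κ : ℕ) : ℝ)) ^ n else 0) =
        (((l.2 : ℕ) : ℝ) * m0) ^ n / (m : ℝ) ^ n := by
    intro m hm
    obtain ⟨q, hq⟩ := (hQM m hm).trans h.2.1
    have hm1 : 1 ≤ m := (mem_Icc.1 hm).1
    have hqd : q ∈ (Q ^ (R + 1)).divisors := by
      rw [Nat.mem_divisors]
      refine ⟨(Dvd.intro_left m hq.symm).trans h.2.2, pow_ne_zero _ hQ⟩
    rw [sum_eq_single (⟨q, hqd⟩ : {κ : ℕ // κ ∈ (Q ^ (R + 1)).divisors})]
    · rw [if_pos (by rw [hq]; exact mul_comm _ _), ← div_pow]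
      congr 1
      have h1 : (((l.2 : ℕ) : ℝ) * m0) = m * q := by exact_mod_cast hq
      rw [h1]
      have h2 : (m : ℝ) ≠ 0 := by exact_mod_cast (by omega : m ≠ 0)
      field_simp
    · intro κ _ hκ
      rw [if_neg]
      intro h1
      apply hκ
      apply Subtype.ext
      have h2 : (κ : ℕ) * m = q * m := by rw [h1, hq, mul_comm]
      exact Nat.eq_of_mul_eq_mul_right (by omega) h2
    · intro h1
      exact absurd (mem_univ _) h1
  simp only [MM, if_pos h]
  push_cast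
  rw [Fintype.sum_prod_type, mul_sum]
  refine sum_congr rfl fun j _ => ?_
  calc ∑ κ : {κ : ℕ // κ ∈ (Q ^ (R + 1)).divisors},
      (∑ m ∈ Icc 1 M, (if (κ : ℕ) * m = (l.2 : ℕ) * m0 then (c j m : ℝ) else 0)) *
        ((a j : ℝ) * ((κ : ℕ) : ℝ) ^ n) =
      ∑ κ : {κ : ℕ // κ ∈ (Q ^ (R + 1)).divisors}, ∑ m ∈ Icc 1 M,
        (a j : ℝ) * (c j m : ℝ) *
          (if (κ : ℕ) * m = (l.2 : ℕ) * m0 then (((κ : ℕ) : ℝ)) ^ n else 0) := by
        refine sum_congr rfl fun κ _ => ?_
        rw [sum_mul]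
        refine sum_congr rfl fun m _ => ?_
        split_ifs
        · ring
        · ring
    _ = ∑ m ∈ Icc 1 M, (a j : ℝ) * (c j m : ℝ) * ((((l.2 : ℕ) : ℝ) * m0) ^ n / (m : ℝ) ^ n) := by
        rw [sum_comm]
        refine sum_congr rfl fun m hm => ?_
        rw [← mul_sum, hinner m hm]
    _ = _ := by
        rw [mul_sum, mul_sum]
        refine sum_congr rfl fun m _ => ?_
        ring

end

end Pool.Agent.TH883.Zg
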