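import Pool.Agent.TH883.Zg.Af

/-!
# Algebraic independence of arithmetic functions from independence at the primes (helper883)
-/

set_option autoImplicit false

namespace Pool.Agent.TH883.Zg

open Finset

/-- the partial derivative in the direction of the prime `q` -/
def Dq (q : ℕ) (f : ArithmeticFunction ℚ) : ArithmeticFunction ℚ :=
  ⟨fun n => (padicValNat q (n * q) : ℚ) * f (n * q), by simp⟩

lemma Dq_apply (q : ℕ) (f : ArithmeticFunction ℚ) (n : ℕ) :
    Dq q f n = (padicValNat q (n * q) : ℚ) * f (n * q) := rfl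

lemma Dq_add (q : ℕ) (f g : ArithmeticFunction ℚ) : Dq q (f + g) = Dq q f + Dq q g := by
  ext n
  rw [ArithmeticFunction.add_apply, Dq_apply, Dq_apply, Dq_apply, ArithmeticFunction.add_apply]
  ring

lemma Dq_sum_aux {q : ℕ} (hq : q.Prime) {n : ℕ} (hn : n ≠ 0) (F : ℕ → ℕ → ℚ) :
    ∑ x ∈ (n * q).divisorsAntidiagonal, (padicValNat q x.1 : ℚ) * F x.1 x.2 =
      ∑ x ∈ n.divisorsAntidiagonal, (padicValNat q (x.1 * q) : ℚ) * F (x.1 * q) x.2 := by
  symm
  refine sum_bij_ne_zero (fun x _ _ => (x.1 * q, x.2)) ?_ ?_ ?_ ?_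
  · intro x hx _
    rw [Nat.mem_divisorsAntidiagonal] at hx ⊢
    refine ⟨?_, Nat.mul_ne_zero hn hq.ne_zero⟩
    show x.1 * q * x.2 = n * q
    rw [← hx.1]
    ring
  · intro x _ _ y _ _ h
    have h1 := congrArg Prod.fst h
    have h2 := congrArg Prod.snd h
    exact Prod.ext (Nat.eq_of_mul_eq_mul_right hq.pos h1) h2
  · intro y hy hne
    rw [Nat.mem_divisorsAntidiagonal] at hy
    have hqy : q ∣ y.1 := by
      by_contra h
      apply hne
      rw [padicValNat.eq_zero_of_not_dvd h]
      simp
    obtain ⟨b, hb⟩ := hqy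
    have h1 : b * y.2 = n := by
      have h2 : q * (b * y.2) = q * n := by
        rw [← mul_assoc, ← hb, hy.1, mul_comm]
      exact Nat.eq_of_mul_eq_mul_left hq.pos h2
    have h3 : b * q = y.1 := by rw [hb, mul_comm]
    refine ⟨(b, y.2), Nat.mem_divisorsAntidiagonal.2 ⟨h1, hn⟩, ?_, ?_⟩
    · show (padicValNat q (b * q) : ℚ) * F (b * q) y.2 ≠ 0
      rw [h3]
      exact hne
    · exact Prod.ext h3 rfl
  · intro x _ _
    rfl

lemma swap_sum (n : ℕ) (F : ℕ × ℕ → ℚ) :
    ∑ x ∈ n.divisorsAntidiagonal, F x = ∑ x ∈ n.divisorsAntidiagonal, F (x.2, x.1) := by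
  conv_lhs => rw [← Nat.map_swap_divisorsAntidiagonal]
  rw [sum_map]
  rfl

/-- the Leibniz rule -/
lemma Dq_mul {q : ℕ} (hq : q.Prime) (f g : ArithmeticFunction ℚ) :
    Dq q (f * g) = Dq q f * g + f * Dq q g := by
  haveI := Fact.mk hq
  ext n
  rcases Nat.eq_zero_or_pos n with rfl | hn
  · simp
  rw [ArithmeticFunction.add_apply, Dq_apply, ArithmeticFunction.mul_apply,
    ArithmeticFunction.mul_apply, ArithmeticFunction.mul_apply]
  have hn0 : n ≠ 0 := by omega
  have h1 : ∑ x ∈ (n * q).divisorsAntidiagonal, (padicValNat q x.1 : ℚ) * (f x.1 * g x.2) =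
      ∑ x ∈ n.divisorsAntidiagonal, Dq q f x.1 * g x.2 := by
    rw [Dq_sum_aux hq hn0 (fun a b => f a * g b)]
    refine sum_congr rfl fun x _ => ?_
    rw [Dq_apply]
    ring
  have h2 : ∑ x ∈ (n * q).divisorsAntidiagonal, (padicValNat q x.2 : ℚ) * (f x.1 * g x.2) =
      ∑ x ∈ n.divisorsAntidiagonal, f x.1 * Dq q g x.2 := by
    have h3 : ∑ x ∈ (n * q).divisorsAntidiagonal, (padicValNat q x.2 : ℚ) * (f x.1 * g x.2) =
        ∑ x ∈ (n * q).divisorsAntidiagonal, (padicValNat q x.1 : ℚ) * (g x.1 * f x.2) := by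
      rw [swap_sum]
      refine sum_congr rfl fun x _ => ?_
      show (padicValNat q x.1 : ℚ) * (f x.2 * g x.1) = _
      ring
    have h4 : ∑ x ∈ n.divisorsAntidiagonal, f x.1 * Dq q g x.2 =
        ∑ x ∈ n.divisorsAntidiagonal, Dq q g x.1 * f x.2 := by
      rw [swap_sum]
      refine sum_congr rfl fun x _ => ?_
      show f x.2 * Dq q g x.1 = _
      ring
    rw [h3, h4, Dq_sum_aux hq hn0 (fun a b => g a * f b)]
    refine sum_congr rfl fun x _ => ?_
    rw [Dq_apply]
    ring
  rw [← h1, ← h2, mul_sum, ← sum_add_distrib]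
  refine sum_congr rfl fun x hx => ?_
  have hx' := Nat.mem_divisorsAntidiagonal.1 hx
  have hx0 := Nat.ne_zero_of_mem_divisorsAntidiagonal hx
  have h5 : padicValNat q (n * q) = padicValNat q x.1 + padicValNat q x.2 := by
    rw [← hx'.1, padicValNat.mul hx0.1 hx0.2]
  rw [h5]
  push_cast
  ring

lemma Dq_algebraMap {q : ℕ} (hq : q.Prime) (a : ℚ) :
    Dq q (algebraMap ℚ (ArithmeticFunction ℚ) a) = 0 := by
  ext n
  rw [Dq_apply, Algebra.algebraMap_eq_smul_one, ArithmeticFunction.smul_map]
  have h1 : (1 : ArithmeticFunction ℚ) (n * q) = 0 := by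
    refine ArithmeticFunction.one_apply_ne ?_
    intro h
    have := Nat.eq_one_of_mul_eq_one_left h
    exact hq.one_lt.ne' this
  rw [h1]
  simp

/-- the chain rule -/
lemma chain {J : Type} [Fintype J] [DecidableEq J] (g : J → ArithmeticFunction ℚ) {q : ℕ}
    (hq : q.Prime) (P : MvPolynomial J ℚ) :
    Dq q (MvPolynomial.aeval g P) =
      ∑ j, MvPolynomial.aeval g (MvPolynomial.pderiv j P) * Dq q (g j) := by
  induction P using MvPolynomial.induction_on with
  | C a =>
    rw [MvPolynomial.aeval_C, Dq_algebraMap hq]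
    symm
    refine sum_eq_zero fun j _ => ?_
    rw [MvPolynomial.pderiv_C, map_zero, zero_mul]
  | add p r hp hr =>
    rw [map_add, Dq_add, hp, hr, ← sum_add_distrib]
    refine sum_congr rfl fun j _ => ?_
    rw [map_add, map_add, add_mul]
  | mul_X p i hp =>
    rw [map_mul, MvPolynomial.aeval_X, Dq_mul hq, hp, sum_mul]
    have h1 : ∀ j, MvPolynomial.aeval g (MvPolynomial.pderiv j (p * MvPolynomial.X i)) *
        Dq q (g j) = MvPolynomial.aeval g (MvPolynomial.pderiv j p) * Dq q (g j) * g i +
          (if i = j then MvPolynomial.aeval g p * Dq q (g i) else 0) := by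
      intro j
      rw [MvPolynomial.pderiv_mul, MvPolynomial.pderiv_X, map_add, map_mul, map_mul,
        MvPolynomial.aeval_X]
      by_cases hij : i = j
      · subst hij
        rw [if_pos rfl, Pi.single_eq_same, map_one]
        ring
      · rw [if_neg hij, Pi.single_eq_of_ne hij, map_zero]
        ring
    rw [sum_congr rfl fun j _ => h1 j, sum_add_distrib, sum_ite_eq]
    simp

section

variable {J : Type} [Fintype J] [DecidableEq J]

lemma coeff_eq_zero_of_pderiv {P : MvPolynomial J ℚ} (h : ∀ j, MvPolynomial.pderiv j P = 0)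
    {m : J →₀ ℕ} (hm : m ≠ 0) : MvPolynomial.coeff m P = 0 := by
  obtain ⟨j, hj⟩ := Finsupp.ne_iff.1 hm
  rw [Finsupp.zero_apply] at hj
  have h1 : m - Finsupp.single j 1 + Finsupp.single j 1 = m := by
    refine tsub_add_cancel_of_le ?_
    rw [Finsupp.single_le_iff]
    omega
  have h2 := MvPolynomial.coeff_pderiv (i := j) P (m - Finsupp.single j 1)
  rw [h j, MvPolynomial.coeff_zero, h1] at h2
  have h3 : (((m - Finsupp.single j 1 : J →₀ ℕ) j : ℕ) : ℚ) + 1 ≠ 0 := by positivity
  exact (mul_eq_zero.1 h2.symm).resolve_right h3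

lemma totalDegree_pderiv {P : MvPolynomial J ℚ} {d : ℕ} (h : P.totalDegree ≤ d + 1) (j : J) :
    (MvPolynomial.pderiv j P).totalDegree ≤ d := by
  rw [MvPolynomial.totalDegree]
  refine Finset.sup_le fun m hm => ?_
  have h1 := MvPolynomial.mem_support_iff.1 hm
  rw [MvPolynomial.coeff_pderiv] at h1
  have h2 : MvPolynomial.coeff (m + Finsupp.single j 1) P ≠ 0 := left_ne_zero_of_mul h1
  have h3 := MvPolynomial.le_totalDegree (MvPolynomial.mem_support_iff.2 h2)
  rw [Finsupp.sum_fintype _ _ (fun _ => rfl)] at h3 ⊢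
  have h4 : ∑ i, (m + Finsupp.single j 1 : J →₀ ℕ) i = ∑ i, m i + 1 := by
    simp only [Finsupp.add_apply, sum_add_distrib]
    congr 1
    rw [← Finsupp.sum_fintype (Finsupp.single j 1) (fun _ e => e) (fun _ => rfl),
      Finsupp.sum_single_index rfl]
  omega

/-- **algebraic independence away from finitely many primes** -/
theorem alg_ind (g : J → ArithmeticFunction ℚ)
    (hpr : ∀ Y : ℕ, ∀ c : J → ℚ, (∀ q : ℕ, q.Prime → Y ≤ q → ∑ j, c j * g j q = 0) → c = 0)
    (N : ℕ) (hN : 1 ≤ N) (d : ℕ) : ∀ P : MvPolynomial J ℚ, P.totalDegree ≤ d →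
      (∀ k, 1 ≤ k → k.Coprime N → MvPolynomial.aeval g P k = 0) → P = 0 := by
  have hconst : ∀ P : MvPolynomial J ℚ, (∀ j, MvPolynomial.pderiv j P = 0) →
      (∀ k, 1 ≤ k → k.Coprime N → MvPolynomial.aeval g P k = 0) → P = 0 := by
    intro P hP hv
    have h1 : P = MvPolynomial.C (MvPolynomial.coeff 0 P) := by
      ext m
      rw [MvPolynomial.coeff_C]
      by_cases hm : 0 = m
      · rw [if_pos hm, hm]
      · rw [if_neg hm]
        exact coeff_eq_zero_of_pderiv hP (Ne.symm hm)
    have h2 := hv 1 le_rfl (Nat.coprime_one_left N)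
    rw [h1, MvPolynomial.aeval_C, ArithmeticFunction.algebraMap_apply_one] at h2
    have h3 : MvPolynomial.coeff 0 P = 0 := h2
    rw [h1, h3, map_zero]
  induction d with
  | zero =>
    intro P hP hv
    refine hconst P (fun j => ?_) hv
    have h1 := MvPolynomial.totalDegree_eq_zero_iff_eq_C.1 (Nat.le_zero.1 hP)
    rw [h1, MvPolynomial.pderiv_C]
  | succ d ih =>
    intro P hP hv
    refine hconst P (fun j => ?_) hv
    have key : ∀ k, 1 ≤ k → k.Coprime N → ∀ j,
        MvPolynomial.aeval g (MvPolynomial.pderiv j P) k = 0 := by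
      intro k
      induction k using Nat.strong_induction_on with
      | _ k ihk =>
        intro hk hkN j
        have h1 := hpr (N + k + 1)
          (fun j => MvPolynomial.aeval g (MvPolynomial.pderiv j P) k) (fun q hq hqY => by
            haveI := Fact.mk hq
            have hqk : ¬ q ∣ k := fun h => by
              have := Nat.le_of_dvd hk h
              omega
            have hqN : q.Coprime N := Pool.Agent.TH507.ZS.coprime_of_gt hq hN (by omega)
            have h2 := hv (k * q) (Nat.mul_pos hk hq.pos) (Nat.Coprime.mul_left hkN hqN)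
            have h3 : Dq q (MvPolynomial.aeval g P) k = (∑ j,
                MvPolynomial.aeval g (MvPolynomial.pderiv j P) * Dq q (g j)) k := by
              rw [chain g hq P]
            rw [Dq_apply, h2, mul_zero] at h3
            have h4 : ∀ j, (MvPolynomial.aeval g (MvPolynomial.pderiv j P) * Dq q (g j)) k =
                MvPolynomial.aeval g (MvPolynomial.pderiv j P) k * g j q := by
              intro j
              rw [ArithmeticFunction.mul_apply,
                Nat.sum_divisorsAntidiagonal (fun x y =>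
                  MvPolynomial.aeval g (MvPolynomial.pderiv j P) x * Dq q (g j) y),
                sum_eq_single_of_mem k (Nat.mem_divisors_self k (by omega))]
              · rw [Nat.div_self hk, Dq_apply, one_mul, padicValNat.self hq.one_lt]
                simp
              · intro x hx hne
                have hx' := (Nat.mem_divisors.1 hx).1
                have hxk : x < k := lt_of_le_of_ne (Nat.le_of_dvd hk hx') hne
                rw [ihk x hxk (Nat.pos_of_mem_divisors hx)
                  (Nat.Coprime.coprime_dvd_left hx' hkN) j, zero_mul]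
            have h5 : ∀ s : Finset J, (∑ j ∈ s,
                MvPolynomial.aeval g (MvPolynomial.pderiv j P) * Dq q (g j)) k =
                ∑ j ∈ s, (MvPolynomial.aeval g (MvPolynomial.pderiv j P) * Dq q (g j)) k := by
              intro s
              induction s using Finset.induction_on with
              | empty => rfl
              | insert a s ha ih =>
                rw [sum_insert ha, sum_insert ha, ArithmeticFunction.add_apply, ih]
            rw [h5] at h3
            rw [← sum_congr rfl fun j _ => h4 j, ← h3])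
        exact congrFun h1 j
    exact ih _ (totalDegree_pderiv hP j) fun k hk hkN => key k hk hkN j

end

end Pool.Agent.TH883.Zg
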