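import Pool.Agent.TH883.Zg.Step
import Pool.Agent.TH883.Zg.Af

/-!
# Small integer combinations of Dirichlet series at large integers (helper883)
-/

set_option autoImplicit false

namespace Pool.Agent.TH883.Zg

open Finset Filter Topology Pool.Agent.TH507.ZS

lemma common {J : Type} [Fintype J] (g : J → ArithmeticFunction ℚ) (hg : ∀ j, PB (g j)) :
    ∃ A : ℕ, ∀ j, ∀ k : ℕ, 1 ≤ k → |(g j k : ℝ)| ≤ A * (k : ℝ) ^ A := by
  choose A hA using hg
  refine ⟨∑ j, A j, fun j k hk => ?_⟩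
  exact PB.mono_exp (single_le_sum (fun _ _ => Nat.zero_le _) (mem_univ j)) (hA j) k hk

lemma trunc {J : Type} [Fintype J] (g : J → ArithmeticFunction ℚ) (hg : ∀ j, PB (g j)) (M : ℕ)
    {C : ℝ} (hC : 1 ≤ C) (n : ℕ → ℕ) (hn : Tendsto n atTop atTop) (a : ℕ → J → ℤ)
    (haC : ∀ t j, |(a t j : ℝ)| ≤ C ^ (n t))
    (hL : ∀ᶠ t in atTop, |∑ j, (a t j : ℝ) * dser (g j) (n t)| ≤ (((M : ℝ) + 1) ^ (n t))⁻¹)
    (Δ : ℕ) (c : J → ℕ → ℤ) (hc : ∀ j, ∀ m ∈ Icc 1 M, ((c j m : ℤ) : ℚ) = Δ * g j m) :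
    ∀ᶠ t in atTop, |∑ j, (a t j : ℝ) * ∑ m ∈ Icc 1 M, (c j m : ℝ) / (m : ℝ) ^ (n t)| ≤
      (2 * C / (M + 1)) ^ (n t) := by
  obtain ⟨A, hA⟩ := common g hg
  have hM0 : (0 : ℝ) < (M : ℝ) + 1 := by positivity
  have hC0 : (0 : ℝ) < C := by linarith only [hC]
  set K1 : ℝ := Fintype.card J * (A * ((M : ℝ) + 1) ^ (A + 2) * Z2) with hK1
  have hK10 : 0 ≤ K1 := by
    have := Z2_nonneg
    positivity
  have e1 := hn.eventually (ev_pow (a := C / ((M : ℝ) + 1)) (b := 2 * C / ((M : ℝ) + 1))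
    (by positivity) (div_lt_div_of_pos_right (by linarith only [hC0]) hM0) (Δ * (1 + K1)))
  have e2 := hn.eventually (eventually_ge_atTop (A + 2))
  filter_upwards [e1, e2, hL] with t h1 h2 h3
  refine le_trans ?_ h1
  have hIcc : Icc 1 M = Ico 1 (M + 1) := by
    ext k
    rw [mem_Icc, mem_Ico]
    omega
  have hid : ∑ j, (a t j : ℝ) * ∑ m ∈ Icc 1 M, (c j m : ℝ) / (m : ℝ) ^ (n t) =
      (Δ : ℝ) * (∑ j, (a t j : ℝ) * dser (g j) (n t) - ∑ j, (a t j : ℝ) *
        (dser (g j) (n t) - ∑ m ∈ Ico 1 (M + 1), (g j m : ℝ) / (m : ℝ) ^ (n t))) := by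
    rw [← sum_sub_distrib, mul_sum]
    refine sum_congr rfl fun j _ => ?_
    have h4 : ∑ m ∈ Icc 1 M, (c j m : ℝ) / (m : ℝ) ^ (n t) =
        (Δ : ℝ) * ∑ m ∈ Ico 1 (M + 1), (g j m : ℝ) / (m : ℝ) ^ (n t) := by
      rw [hIcc, mul_sum]
      refine sum_congr rfl fun m hm => ?_
      rw [← hIcc] at hm
      have h5 : ((c j m : ℤ) : ℝ) = (Δ : ℝ) * (g j m : ℝ) := by exact_mod_cast hc j m hm
      rw [h5]
      ring
    rw [h4]
    ring
  rw [hid, abs_mul, Nat.abs_cast]
  have hMM : ((M + 1 : ℕ) : ℝ) = (M : ℝ) + 1 := by push_cast; rfl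
  have hsum : |∑ j, (a t j : ℝ) *
        (dser (g j) (n t) - ∑ m ∈ Ico 1 (M + 1), (g j m : ℝ) / (m : ℝ) ^ (n t))| ≤
      K1 * (C / ((M : ℝ) + 1)) ^ (n t) := by
    refine (abs_sum_le_sum_abs _ _).trans ?_
    have h6 : ∀ j ∈ (univ : Finset J), |(a t j : ℝ) *
        (dser (g j) (n t) - ∑ m ∈ Ico 1 (M + 1), (g j m : ℝ) / (m : ℝ) ^ (n t))| ≤
        C ^ (n t) * (A * (((M : ℝ) + 1) ^ (A + 2) / ((M : ℝ) + 1) ^ (n t)) * Z2) := by
      intro j _
      rw [abs_mul]
      have h7 := tail (hA j) (show 1 ≤ M + 1 by omega) h2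
      rw [hMM] at h7
      exact mul_le_mul (haC t j) h7 (abs_nonneg _) (by positivity)
    refine (sum_le_sum h6).trans (le_of_eq ?_)
    rw [sum_const, card_univ, nsmul_eq_mul, hK1, div_pow]
    ring
  have hfirst : (((M : ℝ) + 1) ^ (n t))⁻¹ ≤ (C / ((M : ℝ) + 1)) ^ (n t) := by
    rw [div_pow, div_eq_mul_inv]
    exact le_mul_of_one_le_left (by positivity) (one_le_pow₀ hC)
  calc (Δ : ℝ) * |∑ j, (a t j : ℝ) * dser (g j) (n t) - ∑ j, (a t j : ℝ) *
        (dser (g j) (n t) - ∑ m ∈ Ico 1 (M + 1), (g j m : ℝ) / (m : ℝ) ^ (n t))| ≤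
      Δ * ((C / ((M : ℝ) + 1)) ^ (n t) + K1 * (C / ((M : ℝ) + 1)) ^ (n t)) := by
        refine mul_le_mul_of_nonneg_left ?_ (Nat.cast_nonneg _)
        exact (abs_sub _ _).trans (add_le_add (h3.trans hfirst) hsum)
    _ = Δ * (1 + K1) * (C / ((M : ℝ) + 1)) ^ (n t) := by ring

lemma exists_denom {J : Type} [Fintype J] (g : J → ArithmeticFunction ℚ) (M : ℕ) :
    ∃ Δ : ℕ, Δ ≠ 0 ∧ ∀ j, ∀ m ∈ Icc 1 M, (((((Δ : ℚ) * g j m).num : ℤ)) : ℚ) = Δ * g j m := by
  classical
  refine ⟨∏ j, ∏ m ∈ Icc 1 M, (g j m).den, ?_, fun j m hm => ?_⟩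
  · refine prod_ne_zero_iff.2 fun j _ => prod_ne_zero_iff.2 fun m _ => (g j m).den_ne_zero
  · have h1 : (g j m).den ∣ ∏ j, ∏ m ∈ Icc 1 M, (g j m).den :=
      (dvd_prod_of_mem (fun m => (g j m).den) hm).trans
        (dvd_prod_of_mem (fun j => ∏ m ∈ Icc 1 M, (g j m).den) (mem_univ j))
    obtain ⟨q, hq⟩ := h1
    have h2 : ((∏ j, ∏ m ∈ Icc 1 M, (g j m).den : ℕ) : ℚ) * g j m =
        (((q : ℤ) * (g j m).num : ℤ) : ℚ) := by
      rw [hq]
      push_cast
      have h3 := Rat.mul_den_eq_num (g j m)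
      rw [← h3]
      ring
    rw [h2, Rat.num_intCast]

theorem gen (k : ℕ) : ∀ (J : Type) [Fintype J] [DecidableEq J], Fintype.card J = k →
    ∀ (g : J → ArithmeticFunction ℚ), (∀ j, PB (g j)) →
    (∀ p : J → ArithmeticFunction ℚ, (∀ j, FS (p j)) → ∑ j, p j * g j = 0 → ∀ j, p j = 0) →
    ∀ (C : ℝ), 1 ≤ C → ∀ (n : ℕ → ℕ), Tendsto n atTop atTop → ∀ (a : ℕ → J → ℤ),
    (∀ t, a t ≠ 0) → (∀ t j, |(a t j : ℝ)| ≤ C ^ (n t)) →
    (∀ B : ℝ, 1 ≤ B → ∀ᶠ t in atTop,
      |∑ j, (a t j : ℝ) * dser (g j) (n t)| ≤ (B ^ (n t))⁻¹) → False := by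
  classical
  induction k with
  | zero =>
    intro J _ _ hcard g _ _ C _ n _ a ha _ _
    apply ha 0
    funext j
    haveI := Fintype.card_eq_zero_iff.1 hcard
    exact isEmptyElim j
  | succ k ih =>
    intro J _ _ hcard g hg hind C hC n hn a ha haC hL
    have hg0 : ∀ j, g j ≠ 0 := by
      intro j hj
      have h1 := hind (fun i => if i = j then 1 else 0) (fun i => by
        split_ifs
        · exact ⟨2, fun k hk => ArithmeticFunction.one_apply_ne (by omega)⟩
        · exact FS.zero) (by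
        rw [sum_eq_single j]
        · simp [hj]
        · intro i _ hi
          rw [if_neg hi, zero_mul]
        · intro h
          exact absurd (mem_univ _) h) j
      rw [if_pos rfl] at h1
      have h2 : (1 : ArithmeticFunction ℚ) 1 = 0 := by rw [h1]; rfl
      rw [ArithmeticFunction.one_one] at h2
      exact one_ne_zero h2
    -- the least index
    have hex : ∃ m, ∃ j, g j m ≠ 0 := by
      have hne : Nonempty J := by
        rw [← Fintype.card_pos_iff, hcard]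
        omega
      obtain ⟨j⟩ := hne
      obtain ⟨m, _, hm, _⟩ := exists_min (hg0 j)
      exact ⟨m, j, hm⟩
    set m0 := Nat.find hex with hm0
    obtain ⟨j0, hj0⟩ : ∃ j, g j m0 ≠ 0 := Nat.find_spec hex
    have hmin : ∀ m < m0, ∀ j, g j m = 0 := by
      intro m hm j
      by_contra h
      exact Nat.find_min hex hm ⟨j, h⟩
    have h01 : 1 ≤ m0 := by
      rw [Nat.one_le_iff_ne_zero]
      intro h
      rw [h] at hj0
      exact hj0 ArithmeticFunction.map_zero
    -- the truncation point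
    obtain ⟨M, hM0, hM⟩ : ∃ M : ℕ, m0 ≤ M ∧ 2 * (Fintype.card J : ℝ) * Real.log C + Real.log 2 +
        Real.log m0 + 1 ≤ Real.log (M + 1) := by
      obtain ⟨M1, hM1⟩ := exists_nat_ge (Real.exp (2 * (Fintype.card J : ℝ) * Real.log C +
        Real.log 2 + Real.log m0 + 1))
      refine ⟨M1 + m0, by omega, ?_⟩
      rw [Real.le_log_iff_exp_le (by positivity)]
      push_cast
      have : (0 : ℝ) ≤ m0 := Nat.cast_nonneg _
      linarith only [hM1, this]
    obtain ⟨Δ, hΔ0, hΔ⟩ := exists_denom g M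
    set c : J → ℕ → ℤ := fun j m => ((Δ : ℚ) * g j m).num with hc
    have htr := trunc g hg M hC n hn a haC (hL ((M : ℝ) + 1) (by
      have : (0 : ℝ) ≤ M := Nat.cast_nonneg _
      linarith only [this])) Δ c hΔ
    obtain ⟨T, hT⟩ := eventually_atTop.1 htr
    have hadd : Tendsto (fun t : ℕ => t + T) atTop atTop := tendsto_add_atTop_nat T
    obtain ⟨D, hD, y, ⟨j1, κ, hκ, hy1⟩, hfreq⟩ := step j0 m0 M c h01 hM0
      (fun m hm j => by
        show ((Δ : ℚ) * g j m).num = 0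
        rw [hmin m hm j, mul_zero]
        rfl)
      (by
        show ((Δ : ℚ) * g j0 m0).num ≠ 0
        rw [Rat.num_ne_zero]
        exact mul_ne_zero (by exact_mod_cast hΔ0) hj0)
      hC hM (fun t => n (t + T)) (hn.comp hadd) (fun t => a (t + T)) (fun t => ha _)
      (fun t j => haC _ j) (fun t => hT (t + T) (by omega))
    -- the Dirichlet polynomials
    set p : J → ArithmeticFunction ℚ := fun j => dpol D (y j) with hp
    have hpFS : ∀ j, FS (p j) := fun j => dpol_fs D hD (y j)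
    have hp1 : p j1 ≠ 0 := dpol_ne hκ hy1
    obtain ⟨n1, hn1⟩ := dser_ne (hpFS j1).pb hp1
    obtain ⟨K, hK0, n2, hn2⟩ := dser_bdd (hpFS j1).pb
    have hmul : ∀ i j, ∃ n3 : ℕ, ∀ n, n3 ≤ n →
        dser (p i * g j : ArithmeticFunction ℚ) n = dser (p i) n * dser (g j) n :=
      fun i j => dser_mul (hpFS i).pb (hg j)
    have hsb : ∀ j, ∃ n3 : ℕ, ∀ n, n3 ≤ n →
        dser (p j1 * g j - p j * g j1 : ArithmeticFunction ℚ) n =
          dser (p j1 * g j : ArithmeticFunction ℚ) n -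
            dser (p j * g j1 : ArithmeticFunction ℚ) n :=
      fun j => dser_sub ((hpFS j1).pb.mul (hg j)) ((hpFS j).pb.mul (hg j1))
    choose n3 hn3 using hmul
    choose n4 hn4 using hsb
    set N0 : ℕ := n1 + n2 + ∑ i, ∑ j, n3 i j + ∑ j, n4 j with hN0
    have hN3 : ∀ i j, n3 i j ≤ N0 := by
      intro i j
      have h1 : n3 i j ≤ ∑ j, n3 i j :=
        single_le_sum (f := fun j => n3 i j) (fun _ _ => Nat.zero_le _) (mem_univ j)
      have h2 : ∑ j, n3 i j ≤ ∑ i, ∑ j, n3 i j :=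
        single_le_sum (f := fun i => ∑ j, n3 i j) (fun _ _ => Nat.zero_le _) (mem_univ i)
      omega
    have hN4 : ∀ j, n4 j ≤ N0 := by
      intro j
      have h1 : n4 j ≤ ∑ j, n4 j :=
        single_le_sum (f := fun j => n4 j) (fun _ _ => Nat.zero_le _) (mem_univ j)
      omega
    obtain ⟨φ, hφ, hφ2⟩ := extraction_of_frequently_atTop (hfreq.and_eventually
      ((hn.comp hadd).eventually (eventually_ge_atTop N0)))
    set m : ℕ → ℕ := fun t => n (φ t + T) with hm
    have hmt : Tendsto m atTop atTop := (hn.comp hadd).comp hφ.tendsto_atTop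
    have hmN : ∀ t, N0 ≤ m t := fun t => (hφ2 t).2
    have hrel : ∀ t, ∑ j, (a (φ t + T) j : ℝ) * dser (p j) (m t) = 0 := by
      intro t
      have hD0 : ((D : ℝ) ^ (m t)) ≠ 0 := pow_ne_zero _ (by exact_mod_cast hD)
      refine (mul_eq_zero.1 ?_).resolve_right hD0
      rw [sum_mul]
      have h1 := (hφ2 t).1
      have h2 : ((∑ j, a (φ t + T) j * ∑ κ ∈ D.divisors, y j κ * (κ : ℤ) ^ (m t) : ℤ) : ℝ) = 0 := by
        have h3 : ∑ j, a (φ t + T) j * ∑ κ ∈ D.divisors, y j κ * (κ : ℤ) ^ (m t) = 0 := h1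
        rw [h3]
        simp
      rw [← h2, Int.cast_sum]
      refine sum_congr rfl fun j _ => ?_
      rw [mul_assoc, Int.cast_mul, ← dpol_dser hD (y j) (m t)]
    refine ih {j // j ≠ j1} (card_ne j1 hcard) (fun j => p j1 * g j - p j * g j1)
      (fun j => pb_sub ((hpFS j1).pb.mul (hg _)) ((hpFS _).pb.mul (hg j1))) ?_ C hC m hmt
      (fun t j => a (φ t + T) j) (fun t h => ?_) (fun t j => haC _ _) ?_
    · -- independence
      intro q hq hq0 j
      set p' : J → ArithmeticFunction ℚ := fun j =>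
        if h : j ≠ j1 then q ⟨j, h⟩ * p j1 else - ∑ i : {i // i ≠ j1}, q i * p i with hp'
      have hp'1 : p' j1 = - ∑ i : {i // i ≠ j1}, q i * p i := by
        rw [hp']
        exact dif_neg (fun h => h rfl)
      have hp'2 : ∀ i : {i // i ≠ j1}, p' i = q i * p j1 := by
        intro i
        rw [hp']
        exact dif_pos i.2
      have h1 := hind p' (fun i => by
        by_cases hi : i ≠ j1
        · rw [hp'2 ⟨i, hi⟩]
          exact (hq _).mul (hpFS _)
        · rw [not_not] at hi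
          rw [hi, hp'1]
          exact (FS.sum _ _ fun i _ => (hq i).mul (hpFS _)).neg) (by
        rw [sum_ne j1, hp'1]
        have h2 : ∑ i : {i // i ≠ j1}, p' i * g i = ∑ i : {i // i ≠ j1}, q i * p j1 * g i :=
          sum_congr rfl fun i _ => by rw [hp'2 i]
        rw [h2, neg_mul, sum_mul, neg_add_eq_sub, ← sum_sub_distrib, ← hq0]
        refine sum_congr rfl fun i _ => ?_
        ring) j
      rw [hp'2 j] at h1
      by_contra h2
      exact mul_ne h2 hp1 h1
    · -- the new coefficients are not all zero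
      have h1 := hrel t
      rw [sum_ne j1] at h1
      have h2 : ∑ j : {j // j ≠ j1}, (a (φ t + T) j : ℝ) * dser (p j) (m t) = 0 := by
        refine sum_eq_zero fun j _ => ?_
        have h3 : a (φ t + T) j = 0 := congrFun h j
        rw [h3]
        simp
      rw [h2, add_zero] at h1
      have h4 : a (φ t + T) j1 = 0 := by
        have h5 := (mul_eq_zero.1 h1).resolve_right
          (hn1 (m t) (le_trans (by omega) (hmN t)))
        exact_mod_cast h5
      apply ha (φ t + T)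
      funext j
      by_cases hj : j = j1
      · rw [hj]
        exact h4
      · exact congrFun h ⟨j, hj⟩
    · -- smallness
      intro B hB
      have h1 : Tendsto (fun t => φ t + T) atTop atTop := hadd.comp hφ.tendsto_atTop
      have h2 := h1.eventually (hL (2 * B) (by linarith only [hB]))
      have h3 := hmt.eventually (ev_pow (a := 1) (b := 2) (by norm_num) (by norm_num) K)
      filter_upwards [h2, h3] with t h4 h5
      have hNt := hmN t
      have h6 : ∑ j : {j // j ≠ j1}, (a (φ t + T) j : ℝ) *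
          dser (p j1 * g j - p j * g j1 : ArithmeticFunction ℚ) (m t) =
          dser (p j1) (m t) * ∑ j, (a (φ t + T) j : ℝ) * dser (g j) (m t) := by
        have h7 : ∀ j : {j // j ≠ j1}, (a (φ t + T) j : ℝ) *
          dser (p j1 * g j - p j * g j1 : ArithmeticFunction ℚ) (m t) =
          dser (p j1) (m t) * ((a (φ t + T) j : ℝ) * dser (g j) (m t)) -
            (a (φ t + T) j : ℝ) * dser (p j) (m t) * dser (g j1) (m t) := by
          intro j
          rw [hn4 j (m t) (le_trans (hN4 _) hNt), hn3 j1 j (m t) (le_trans (hN3 _ _) hNt),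
            hn3 j j1 (m t) (le_trans (hN3 _ _) hNt)]
          ring
        rw [sum_congr rfl fun j _ => h7 j, sum_sub_distrib, ← mul_sum, ← sum_mul]
        have h8 := hrel t
        rw [sum_ne j1] at h8
        rw [sum_ne j1 (fun j => (a (φ t + T) j : ℝ) * dser (g j) (m t))]
        have h9 : ∑ j : {j // j ≠ j1}, (a (φ t + T) j : ℝ) * dser (p j) (m t) =
            -((a (φ t + T) j1 : ℝ) * dser (p j1) (m t)) := by linarith only [h8]
        rw [h9]
        ring
      rw [h6, abs_mul]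
      have h7 := hn2 (m t) (le_trans (by omega) hNt)
      have h8 : |∑ j, (a (φ t + T) j : ℝ) * dser (g j) (m t)| ≤ ((2 * B) ^ (m t))⁻¹ := h4
      rw [one_pow, mul_one] at h5
      have hB0 : (0 : ℝ) < B := by linarith only [hB]
      calc |dser (p j1) (m t)| * |∑ j, (a (φ t + T) j : ℝ) * dser (g j) (m t)| ≤
          2 ^ (m t) * ((2 * B) ^ (m t))⁻¹ :=
            mul_le_mul (h7.trans h5) h8 (abs_nonneg _) (by positivity)
        _ = (B ^ (m t))⁻¹ := by
          rw [mul_pow, mul_inv]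
          field_simp

/-- **the main theorem** -/
theorem main {J : Type} [Fintype J] (g : J → ArithmeticFunction ℚ) (hg : ∀ j, PB (g j))
    (hind : ∀ p : J → ArithmeticFunction ℚ, (∀ j, FS (p j)) → ∑ j, p j * g j = 0 → ∀ j, p j = 0)
    (C : ℝ) : ∃ B : ℝ, 1 < B ∧ ∃ n0 : ℕ, ∀ n : ℕ, n0 ≤ n → ∀ a : J → ℤ, a ≠ 0 →
      (∀ j, |(a j : ℝ)| ≤ C ^ n) → (B ^ n)⁻¹ < |∑ j, (a j : ℝ) * dser (g j) n| := by
  classical
  by_contra hcon
  push Not at hcon
  have h1 : ∀ t : ℕ, ∃ n : ℕ, t ≤ n ∧ ∃ a : J → ℤ, a ≠ 0 ∧ (∀ j, |(a j : ℝ)| ≤ C ^ n) ∧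
      |∑ j, (a j : ℝ) * dser (g j) n| ≤ (((t : ℝ) + 2) ^ n)⁻¹ := by
    intro t
    obtain ⟨n, hn, a, ha, h2, h3⟩ := hcon ((t : ℝ) + 2) (by
      have : (0 : ℝ) ≤ t := Nat.cast_nonneg _
      linarith only [this]) t
    exact ⟨n, hn, a, ha, h2, h3⟩
  choose n hn a ha haC hL using h1
  refine gen (Fintype.card J) J rfl g hg hind (max 1 |C|) (le_max_left _ _) n
    (tendsto_atTop_mono hn tendsto_id) a ha (fun t j => ?_) (fun B hB => ?_)
  · refine (haC t j).trans ((le_abs_self _).trans ?_)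
    rw [abs_pow]
    exact pow_le_pow_left₀ (abs_nonneg _) (le_max_right _ _) _
  · obtain ⟨t0, ht0⟩ := exists_nat_ge B
    filter_upwards [eventually_ge_atTop t0] with t ht
    refine (hL t).trans ?_
    have h2 : B ≤ (t : ℝ) + 2 := by
      have : (t0 : ℝ) ≤ t := by exact_mod_cast ht
      linarith only [this, ht0]
    have hB0 : (0 : ℝ) < B := by linarith only [hB]
    exact inv_anti₀ (pow_pos hB0 _) (pow_le_pow_left₀ hB0.le h2 _)

end Pool.Agent.TH883.Zg
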