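import Pool.Agent.TH883.Zg.Box

/-!
# One application of the subspace theorem (helper883)
-/

set_option autoImplicit false

namespace Pool.Agent.TH883.Zg

open Finset Filter Topology Pool.Agent.TH461.SST

section

variable {J : Type} [Fintype J] [DecidableEq J] (j0 : J) (m0 Q R M : ℕ)

open Classical in
/-- the bases of the sizes -/
noncomputable def al (C : ℝ) (l : Ix J Q R) : ℝ :=
  if Sp j0 m0 Q R l then 2 * C * (((l.2 : ℕ) : ℝ) * m0) / (M + 1) else C * ((l.2 : ℕ) : ℝ)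

open Classical in
lemma card_sp (h0Q : m0 ∣ Q) (hQ : Q ≠ 0) :
    (Q ^ R).divisors.card ≤ (univ.filter (Sp j0 m0 Q R)).card := by
  refine card_le_card_of_surjOn (fun l : Ix J Q R => (l.2 : ℕ) * m0 / Q) ?_
  intro θ hθ
  rw [mem_coe, Nat.mem_divisors] at hθ
  have h1 : θ * (Q / m0) * m0 = θ * Q := by
    rw [mul_assoc, Nat.div_mul_cancel h0Q]
  have h2 : θ * Q ∣ Q ^ (R + 1) := by
    rw [pow_succ]
    exact Nat.mul_dvd_mul_right hθ.1 Q
  have h3 : θ * (Q / m0) ∈ (Q ^ (R + 1)).divisors := by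
    rw [Nat.mem_divisors]
    exact ⟨(Dvd.intro m0 h1).trans h2, pow_ne_zero _ hQ⟩
  refine ⟨(j0, ⟨θ * (Q / m0), h3⟩), ?_, ?_⟩
  · rw [mem_coe, mem_filter]
    refine ⟨mem_univ _, rfl, ?_, ?_⟩
    · show Q ∣ θ * (Q / m0) * m0
      rw [h1]
      exact Dvd.intro_left θ rfl
    · show θ * (Q / m0) * m0 ∣ Q ^ (R + 1)
      rw [h1]
      exact h2
  · show θ * (Q / m0) * m0 / Q = θ
    rw [h1]
    exact Nat.mul_div_cancel _ (Nat.pos_of_ne_zero hQ)

lemma mem_pos {Q R : ℕ} (l : Ix J Q R) : (0 : ℝ) < ((l.2 : ℕ) : ℝ) := by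
  exact_mod_cast Nat.pos_of_mem_divisors l.2.2

lemma al_pos {C : ℝ} (hC : 1 ≤ C) (h0 : 1 ≤ m0) (l : Ix J Q R) : 0 < al j0 m0 Q R M C l := by
  have h1 := mem_pos l
  have h2 : (0 : ℝ) < m0 := by exact_mod_cast h0
  unfold al
  split_ifs
  · positivity
  · positivity

open Classical in
lemma log_al {C : ℝ} (hC : 1 ≤ C) (h0 : 1 ≤ m0) (l : Ix J Q R) :
    Real.log (al j0 m0 Q R M C l) = Real.log ((l.2 : ℕ) : ℝ) +
      (if Sp j0 m0 Q R l then Real.log 2 + Real.log C + Real.log m0 - Real.log (M + 1)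
        else Real.log C) := by
  have h1 := mem_pos l
  have h2 : (0 : ℝ) < m0 := by exact_mod_cast h0
  have h3 : (0 : ℝ) < C := by linarith only [hC]
  have h4 : (0 : ℝ) < (M : ℝ) + 1 := by positivity
  unfold al
  split_ifs
  · rw [Real.log_div (by positivity) h4.ne', Real.log_mul (by positivity) (by positivity),
      Real.log_mul (by norm_num) h3.ne', Real.log_mul h1.ne' h2.ne']
    ring
  · rw [Real.log_mul h3.ne' h1.ne']
    ring

lemma arith {f g k d r : ℝ} {Y Z : ℝ} (hY : 0 ≤ Y) (hk : 0 ≤ k) (hsum : f + g = k * d)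
    (hd : d ≤ 2 * r) (hr : r ≤ f) (hf : 1 ≤ f) (hZ : 2 * k * Y + Z ≤ -1) :
    f * (Y + Z) + g * Y ≤ -1 := by
  have h1 : f * (Y + Z) + g * Y = k * d * Y + f * Z := by
    rw [← hsum]; ring
  have h2 : k * d * Y ≤ k * (2 * f) * Y := by
    have : d ≤ 2 * f := by linarith only [hd, hr]
    gcongr
  have h3 : k * (2 * f) * Y + f * Z = f * (2 * k * Y + Z) := by ring
  have h4 : f * (2 * k * Y + Z) ≤ f * (-1) := mul_le_mul_of_nonneg_left hZ (by linarith only [hf])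
  linarith only [h1, h2, h3, h4, hf]

lemma sum_al {C : ℝ} (hC : 1 ≤ C) (h0 : 1 ≤ m0) (h0Q : m0 ∣ Q) (hQ : Q ≠ 0)
    (hR : (Q ^ (R + 1)).divisors.card ≤ 2 * (Q ^ R).divisors.card)
    (hM : 2 * (Fintype.card J : ℝ) * Real.log C + Real.log 2 + Real.log m0 + 1 ≤
      Real.log (M + 1)) :
    ∑ l : Ix J Q R, Real.log (al j0 m0 Q R M C l) + 1 ≤
      ∑ l : Ix J Q R, Real.log ((l.2 : ℕ) : ℝ) := by
  classical
  simp only [log_al j0 m0 Q R M hC h0]
  rw [sum_add_distrib, sum_ite, sum_const, sum_const, nsmul_eq_mul, nsmul_eq_mul]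
  have h1 := card_sp j0 m0 Q R h0Q hQ
  have h2 : (univ.filter (Sp j0 m0 Q R)).card +
      (univ.filter (fun l : Ix J Q R => ¬ Sp j0 m0 Q R l)).card =
        Fintype.card J * (Q ^ (R + 1)).divisors.card := by
    rw [card_filter_add_card_filter_not, card_univ, Fintype.card_prod, Fintype.card_coe]
  have h3 : 1 ≤ (Q ^ R).divisors.card := by
    rw [Nat.one_le_iff_ne_zero, Ne, card_eq_zero, Nat.divisors_eq_empty]
    exact pow_ne_zero _ hQ
  have h4 := arith (f := ((univ.filter (Sp j0 m0 Q R)).card : ℝ))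
    (g := ((univ.filter (fun l : Ix J Q R => ¬ Sp j0 m0 Q R l)).card : ℝ))
    (k := (Fintype.card J : ℝ)) (d := ((Q ^ (R + 1)).divisors.card : ℝ))
    (r := ((Q ^ R).divisors.card : ℝ)) (Y := Real.log C)
    (Z := Real.log 2 + Real.log m0 - Real.log (M + 1)) (Real.log_nonneg hC) (Nat.cast_nonneg _)
    (by exact_mod_cast h2) (by exact_mod_cast hR) (by exact_mod_cast h1)
    (by exact_mod_cast h3.trans h1) (by linarith only [hM])
  have h5 : Real.log 2 + Real.log C + Real.log m0 - Real.log (M + 1) =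
      Real.log C + (Real.log 2 + Real.log m0 - Real.log (M + 1)) := by ring
  rw [h5]
  linarith only [h4]

/-- the primes -/
noncomputable def pb (Q : ℕ) (i : Fin Q.primeFactors.card) : ℕ := (Q.primeFactors.equivFin.symm i : ℕ)

lemma pb_mem (Q : ℕ) (i : Fin Q.primeFactors.card) : pb Q i ∈ Q.primeFactors :=
  (Q.primeFactors.equivFin.symm i).2

lemma pb_sum (Q : ℕ) (f : ℕ → ℝ) : ∑ i, f (pb Q i) = ∑ p ∈ Q.primeFactors, f p := by
  rw [← Finset.sum_coe_sort Q.primeFactors f]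
  exact Equiv.sum_comp Q.primeFactors.equivFin.symm (fun p : Q.primeFactors => f p)

lemma sum_log (hQ : Q ≠ 0) (l : Ix J Q R) :
    ∑ i, ((l.2 : ℕ).factorization (pb Q i) : ℝ) * Real.log (pb Q i) =
      Real.log ((l.2 : ℕ) : ℝ) := by
  rw [pb_sum Q (fun p => ((l.2 : ℕ).factorization p : ℝ) * Real.log p)]
  have h : (l.2 : ℕ).primeFactors ⊆ Q.primeFactors := by
    have h1 := Nat.primeFactors_mono (Nat.dvd_of_mem_divisors l.2.2) (pow_ne_zero _ hQ)
    rwa [Nat.primeFactors_pow _ (by omega)] at h1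
  rw [Real.log_nat_eq_sum_factorization,
    Finsupp.sum_of_support_subset _ (by simpa using h) _ (fun p _ => by simp)]

/-- **the step** -/
theorem step (c : J → ℕ → ℤ) (h0 : 1 ≤ m0) (h0M : m0 ≤ M) (hmin : ∀ m < m0, ∀ j, c j m = 0)
    (hj0 : c j0 m0 ≠ 0) {C : ℝ} (hC : 1 ≤ C)
    (hM : 2 * (Fintype.card J : ℝ) * Real.log C + Real.log 2 + Real.log m0 + 1 ≤
      Real.log (M + 1))
    (n : ℕ → ℕ) (hn : Tendsto n atTop atTop) (a : ℕ → J → ℤ) (ha : ∀ t, a t ≠ 0)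
    (haC : ∀ t j, |(a t j : ℝ)| ≤ C ^ (n t))
    (hL : ∀ t, |∑ j, (a t j : ℝ) * ∑ m ∈ Icc 1 M, (c j m : ℝ) / (m : ℝ) ^ (n t)| ≤
      (2 * C / (M + 1)) ^ (n t)) :
    ∃ D : ℕ, D ≠ 0 ∧ ∃ y : J → ℕ → ℤ, (∃ j, ∃ κ ∈ D.divisors, y j κ ≠ 0) ∧
      ∃ᶠ t in atTop, ∑ j, a t j * ∑ κ ∈ D.divisors, y j κ * (κ : ℤ) ^ (n t) = 0 := by
  classical
  obtain ⟨Q, hQ, hQM, h0Q⟩ : ∃ Q : ℕ, Q ≠ 0 ∧ (∀ m ∈ Icc 1 M, m ∣ Q) ∧ m0 ∣ Q := by
    refine ⟨M.factorial, Nat.factorial_ne_zero M, fun m hm => ?_, Nat.dvd_factorial h0 h0M⟩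
    rw [mem_Icc] at hm
    exact Nat.dvd_factorial hm.1 hm.2
  obtain ⟨R, -, hR⟩ := card_ratio Q hQ
  have hdet := det_ne j0 m0 Q R M c h0 h0M hmin hj0 hQ
  have h1D : (1 : ℕ) ∈ (Q ^ (R + 1)).divisors := Nat.one_mem_divisors.2 (pow_ne_zero _ hQ)
  haveI : Nonempty (Ix J Q R) := ⟨(j0, ⟨1, h1D⟩)⟩
  set cc : ℝ := 1 + ∑ l : Ix J Q R, |Real.log (al j0 m0 Q R M C l)| +
    ∑ i, ∑ l : Ix J Q R, ((l.2 : ℕ).factorization (pb Q i) : ℝ) * Real.log (pb Q i) with hcc
  have hb1 : ∀ i, (1 : ℝ) ≤ (pb Q i : ℝ) := fun i => by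
    exact_mod_cast (Nat.prime_of_mem_primeFactors (pb_mem Q i)).one_lt.le
  have hnn : ∀ i (l : Ix J Q R),
      0 ≤ ((l.2 : ℕ).factorization (pb Q i) : ℝ) * Real.log (pb Q i) := fun i l =>
    mul_nonneg (Nat.cast_nonneg _) (Real.log_nonneg (hb1 i))
  have hs1 : 0 ≤ ∑ l : Ix J Q R, |Real.log (al j0 m0 Q R M C l)| :=
    sum_nonneg fun _ _ => abs_nonneg _
  have hs2 : 0 ≤ ∑ i, ∑ l : Ix J Q R,
      ((l.2 : ℕ).factorization (pb Q i) : ℝ) * Real.log (pb Q i) :=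
    sum_nonneg fun i _ => sum_nonneg fun l _ => hnn i l
  have hsub := sub (MM j0 m0 Q R M c) hdet (pb Q)
    (fun i => (Nat.prime_of_mem_primeFactors (pb_mem Q i)).two_le)
    (fun i i' hii' => by
      rw [Nat.coprime_primes (Nat.prime_of_mem_primeFactors (pb_mem Q i))
        (Nat.prime_of_mem_primeFactors (pb_mem Q i'))]
      intro h
      exact hii' (Q.primeFactors.equivFin.symm.injective (Subtype.ext h)))
    (c := cc) (γ := 1) (by linarith only [hs1, hs2, hcc]) one_pos (fun t => (n t : ℝ))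
    (tendsto_natCast_atTop_atTop.comp hn)
    (fun t i l => n t * (l.2 : ℕ).factorization (pb Q i))
    (fun t l => (al j0 m0 Q R M C l) ^ (n t)) (fun t => ?_)
    (fun t l => a t l.1 * ((l.2 : ℕ) : ℤ) ^ (n t)) (fun t => ?_) (fun t l => ?_)
    (fun t i l => ?_)
  · obtain ⟨y, hy0, hy⟩ := hsub
    let y' : J → ℕ → ℤ := fun j κ => if h : κ ∈ (Q ^ (R + 1)).divisors then y (j, ⟨κ, h⟩) else 0
    have hy' : ∀ (j : J) (κ : {κ : ℕ // κ ∈ (Q ^ (R + 1)).divisors}), y' j κ = y (j, κ) :=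
      fun j κ => dif_pos κ.2
    refine ⟨Q ^ (R + 1), pow_ne_zero _ hQ, y', ?_, ?_⟩
    · obtain ⟨⟨j, κ, h⟩, hne⟩ := Function.ne_iff.1 hy0
      refine ⟨j, κ, h, ?_⟩
      rw [show y' j κ = y (j, ⟨κ, h⟩) from hy' j ⟨κ, h⟩]
      exact hne
    · refine hy.mono fun t ht => ?_
      rw [← ht, Fintype.sum_prod_type]
      refine sum_congr rfl fun j _ => ?_
      rw [mul_sum, ← sum_coe_sort (Q ^ (R + 1)).divisors]
      refine sum_congr rfl fun κ _ => ?_
      rw [hy' j κ]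
      ring
  · have hnt : (0 : ℝ) ≤ (n t : ℝ) := Nat.cast_nonneg _
    refine ⟨fun i l => ?_, fun l => pow_pos (al_pos j0 m0 Q R M hC h0 l) _, fun l => ?_, ?_⟩
    · push_cast
      have h1 : ((l.2 : ℕ).factorization (pb Q i) : ℝ) * Real.log (pb Q i) ≤ cc := by
        have h2 : ((l.2 : ℕ).factorization (pb Q i) : ℝ) * Real.log (pb Q i) ≤
            ∑ l : Ix J Q R, ((l.2 : ℕ).factorization (pb Q i) : ℝ) * Real.log (pb Q i) :=
          single_le_sum (f := fun l : Ix J Q R =>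
            ((l.2 : ℕ).factorization (pb Q i) : ℝ) * Real.log (pb Q i))
            (fun l _ => hnn i l) (mem_univ l)
        have h3 : ∑ l : Ix J Q R, ((l.2 : ℕ).factorization (pb Q i) : ℝ) * Real.log (pb Q i) ≤
            ∑ i, ∑ l : Ix J Q R, ((l.2 : ℕ).factorization (pb Q i) : ℝ) * Real.log (pb Q i) :=
          single_le_sum (f := fun i => ∑ l : Ix J Q R,
            ((l.2 : ℕ).factorization (pb Q i) : ℝ) * Real.log (pb Q i))
            (fun i _ => sum_nonneg fun l _ => hnn i l) (mem_univ i)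
        linarith only [h2, h3, hs1, hcc]
      calc (n t : ℝ) * ((l.2 : ℕ).factorization (pb Q i) : ℝ) * Real.log (pb Q i) =
          (((l.2 : ℕ).factorization (pb Q i) : ℝ) * Real.log (pb Q i)) * n t := by ring
        _ ≤ cc * n t := mul_le_mul_of_nonneg_right h1 hnt
    · rw [Real.log_pow, abs_mul, Nat.abs_cast, mul_comm]
      refine mul_le_mul_of_nonneg_right ?_ hnt
      have h2 : |Real.log (al j0 m0 Q R M C l)| ≤
          ∑ l : Ix J Q R, |Real.log (al j0 m0 Q R M C l)| :=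
        single_le_sum (f := fun l : Ix J Q R => |Real.log (al j0 m0 Q R M C l)|)
          (fun l _ => abs_nonneg _) (mem_univ l)
      linarith only [h2, hs2, hcc]
    · have h1 := sum_al j0 m0 Q R M hC h0 h0Q hQ hR hM
      have h2 : ∑ l : Ix J Q R, Real.log ((al j0 m0 Q R M C l) ^ (n t)) =
          n t * ∑ l : Ix J Q R, Real.log (al j0 m0 Q R M C l) := by
        rw [mul_sum]
        exact sum_congr rfl fun l _ => Real.log_pow _ _
      have h3 : ∑ i, ∑ l : Ix J Q R, ((n t * (l.2 : ℕ).factorization (pb Q i) : ℕ) : ℝ) *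
          Real.log (pb Q i) = n t * ∑ l : Ix J Q R, Real.log ((l.2 : ℕ) : ℝ) := by
        rw [sum_comm, mul_sum]
        refine sum_congr rfl fun l _ => ?_
        rw [← sum_log Q R hQ l, mul_sum]
        refine sum_congr rfl fun i _ => ?_
        push_cast
        ring
      rw [h2, h3]
      have h4 := mul_le_mul_of_nonneg_left h1 hnt
      linarith only [h4]
  · intro h
    apply ha t
    funext j
    have h1 := congrFun h (j, ⟨1, h1D⟩)
    simpa using h1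
  · by_cases hsp : Sp j0 m0 Q R l
    · rw [row_sp j0 m0 Q R M c hsp hQM hQ (n t) (a t), abs_mul]
      have h1 := mem_pos l
      rw [abs_of_nonneg (by positivity)]
      have h2 : al j0 m0 Q R M C l = (((l.2 : ℕ) : ℝ) * m0) * (2 * C / (M + 1)) := by
        rw [al, if_pos hsp]
        ring
      rw [h2, mul_pow (((l.2 : ℕ) : ℝ) * m0) (2 * C / (M + 1))]
      exact mul_le_mul_of_nonneg_left (hL t) (by positivity)
    · rw [row_ord j0 m0 Q R M c hsp]
      have h1 := mem_pos l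
      have h2 : al j0 m0 Q R M C l = C * ((l.2 : ℕ) : ℝ) := by
        rw [al, if_neg hsp]
      rw [h2]
      push_cast
      rw [abs_mul, mul_pow, abs_of_nonneg (by positivity : (0 : ℝ) ≤ ((l.2 : ℕ) : ℝ) ^ (n t))]
      exact mul_le_mul_of_nonneg_right (haC t l.1) (by positivity)
  · refine dvd_mul_of_dvd_right ?_ _
    have h1 : (pb Q i) ^ (n t * (l.2 : ℕ).factorization (pb Q i)) ∣ (l.2 : ℕ) ^ (n t) := by
      rw [mul_comm, pow_mul]
      exact pow_dvd_pow_of_dvd (Nat.ordProj_dvd _ _) _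
    exact_mod_cast h1

end

end Pool.Agent.TH883.Zg
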