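import Pool.Agent.TH932.S2.Sst

/-!
# The subspace theorem for vectors indexed by a finite type (helper883)

Forms `M0` at the real place, coordinates at finitely many coprime moduli.
-/

set_option autoImplicit false

namespace Pool.Agent.TH883.Zg

open Finset Filter Topology Pool.Agent.TH461.SST

theorem sub {ι : Type} [Fintype ι] [DecidableEq ι] [Nonempty ι] {s : ℕ} (M0 : Matrix ι ι ℤ)
    (hM0 : M0.det ≠ 0) (b : Fin s → ℕ) (hb2 : ∀ v, 2 ≤ b v)
    (hcop : ∀ v v', v ≠ v' → Nat.Coprime (b v) (b v')) {c γ : ℝ} (hc : 1 ≤ c) (hγ : 0 < γ)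
    (N : ℕ → ℝ) (hN : Tendsto N atTop atTop) (e : ℕ → Fin s → ι → ℕ) (A : ℕ → ι → ℝ)
    (hsize : ∀ t, Size b c γ (N t) (e t) (A t)) (x : ℕ → ι → ℤ) (hx : ∀ t, x t ≠ 0)
    (h1 : ∀ t l, |((∑ j, M0 l j * x t j : ℤ) : ℝ)| ≤ A t l)
    (h2 : ∀ t v l, (b v : ℤ) ^ (e t v l) ∣ x t l) :
    ∃ y : ι → ℤ, y ≠ 0 ∧ ∃ᶠ t in atTop, ∑ l, y l * x t l = 0 := by
  classical
  let E : ι ≃ Fin (Fintype.card ι) := Fintype.equivFin ι
  have a1 : ∀ t, Size b c γ (N t) (fun v l => e t v (E.symm l)) (fun l => A t (E.symm l)) := by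
    intro t
    obtain ⟨s1, s2, s3, s4⟩ := hsize t
    refine ⟨fun v l => s1 v _, fun l => s2 _, fun l => s3 _, ?_⟩
    rw [Equiv.sum_comp E.symm (fun l => Real.log (A t l))]
    refine s4.trans (le_of_eq ?_)
    refine sum_congr rfl fun v _ => ?_
    exact (Equiv.sum_comp E.symm (fun l => (e t v l : ℝ) * Real.log (b v))).symm
  have a2 : ∀ t, (fun l => x t (E.symm l)) ≠ 0 := by
    intro t h
    apply hx t
    funext l
    have := congrFun h (E l)
    simpa using this
  have a3 : ∀ t, Sol (M0.submatrix E.symm E.symm) (fun _ => 1) b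
      (fun v l => e t v (E.symm l)) (fun l => A t (E.symm l)) (fun l => x t (E.symm l)) := by
    intro t
    refine ⟨fun l => ?_, fun v l => ?_⟩
    · have h3 := h1 t (E.symm l)
      have h4 : ∑ j, M0.submatrix E.symm E.symm l j * x t (E.symm j) =
          ∑ j, M0 (E.symm l) j * x t j :=
        Equiv.sum_comp E.symm (fun j => M0 (E.symm l) j * x t j)
      rw [h4]
      exact h3
    · have h3 : ∑ j, (1 : Matrix (Fin (Fintype.card ι)) (Fin (Fintype.card ι)) ℤ) l j *
          x t (E.symm j) = x t (E.symm l) := by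
        simp [Matrix.one_apply]
      rw [h3]
      exact h2 t v (E.symm l)
  obtain ⟨y, hy0, hy⟩ := Pool.Agent.TH932.S2.subspace (Fintype.card ι) s Fintype.card_pos
    (M0.submatrix E.symm E.symm) (fun _ => 1) b
    ⟨by rwa [Matrix.det_submatrix_equiv_self], fun _ => by simp, hb2, hcop⟩ c γ hc hγ N hN
    (fun t v l => e t v (E.symm l)) (fun t l => A t (E.symm l)) a1
    (fun t l => x t (E.symm l)) a2 a3
  refine ⟨fun l => y (E l), ?_, hy.mono fun t ht => ?_⟩
  · intro h
    apply hy0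
    funext l
    have := congrFun h (E.symm l)
    simpa using this
  · rw [← ht, ← Equiv.sum_comp E.symm (fun l => y (E l) * x t l)]
    simp

end Pool.Agent.TH883.Zg
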